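import Pool.Agent.Q188.FC.StmK

/-!
# Statements, geometric part
-/

set_option autoImplicit false

open MeasureTheory Metric InnerProductGeometry

namespace Pool.Agent.Q188.FC

open Pool.Agent.W716.FV (E gam gd UU)
open Pool.Agent.H241R3.FV (Sph ext RChart Fill Triang)

/-- A family of functions of class `Cc` with parameter in the open set `U`, locally Lipschitz. -/
def LipFam {n : ℕ} (U : Set (E n)) (φ : E n → E n → ℝ) : Prop :=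
  (∀ c, Cc (φ c)) ∧ ∀ c₀ ∈ U, ∃ r K : ℝ, 0 < r ∧ 0 ≤ K ∧ ball c₀ r ⊆ U ∧
    ∀ c ∈ ball c₀ r, ∀ c' ∈ ball c₀ r, ∀ y, |φ c y - φ c' y| ≤ K * ‖c - c'‖ * ‖y‖

/-- `D y` is the derivative of `c ↦ φ c y` at `c₀` for almost all `y`, and it is bounded by the
metric `G`. -/
def GoodD {n : ℕ} (φ : E n → E n → ℝ) (c₀ : E n) (G : Matrix (Fin n) (Fin n) ℝ)
    (D : E n → E n →L[ℝ] ℝ) : Prop :=
  Measurable D ∧ ∀ᵐ y ∂(volume : Measure (E n)), HasFDerivAt (fun c => φ c y) (D y) c₀ ∧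
    ∀ v : E n, (D y v) ^ 2 ≤ (‖y‖ ^ 2 - φ c₀ y ^ 2) * ∑ i, ∑ j, v i * G i j * v j

/-- [FC-CF] Differentiability of the centre (from `LocZ`, `GGDer`, `GGStrict`, `GGChart`, `JacF`).
Proof.  `p₀ = f c₀`, `L` the derivative of `GG · (φ c₀)` at `p₀`, `T` the derivative of
`c ↦ GG p₀ (φ c)` at `c₀` (`GGChart`), `det L ≠ 0` (`JacF`).  Let `c ∈ s`, `c → c₀`, `p = f c`;
`‖p-p₀‖ ≤ K'‖c-c₀‖` by `LocZ`.  `0 = [GG p (φ c) - GG p₀ (φ c)] + [GG p₀ (φ c) - GG p₀ (φ c₀)] =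
L(p-p₀) + o(‖p-p₀‖) + T(c-c₀) + o(‖c-c₀‖)` (`GGStrict` for the first bracket), so
`p-p₀ = -L⁻¹T(c-c₀) + o(‖c-c₀‖)`.  `f' = -L⁻¹T`, `|det f'| = |det T|/|det L|`. -/
def CenterDiff : Prop :=
  ∀ (n : ℕ), 0 < n → ∀ (U : Set (E n)) (φ : E n → E n → ℝ), IsOpen U → LipFam U φ →
    ∀ (s : Set (E n)) (f : E n → E n), s ⊆ U → (∀ c ∈ s, ‖f c‖ < 1 ∧ GG (f c) (φ c) = 0) →
    ∀ c₀ ∈ s, ∀ G : Matrix (Fin n) (Fin n) ℝ, G.PosDef → (∃ D, GoodD φ c₀ G D) →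
    ∃ f' : E n →L[ℝ] E n, HasFDerivWithinAt f f' s c₀ ∧
      |f'.det| ≤ 100 / 81 * (lf (f c₀))⁻¹ * √G.det

/-- [FC-CL] The centre is locally Lipschitz (from `LocZ`). -/
def CenterLip : Prop :=
  ∀ (n : ℕ) (U : Set (E n)) (φ : E n → E n → ℝ), IsOpen U → LipFam U φ →
    ∀ (s : Set (E n)) (f : E n → E n), s ⊆ U → (∀ c ∈ s, ‖f c‖ < 1 ∧ GG (f c) (φ c) = 0) →
    ∀ c₀ ∈ s, ∃ r K : ℝ, 0 < r ∧ ∀ c ∈ s ∩ ball c₀ r, ∀ c' ∈ s ∩ ball c₀ r,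
      ‖f c - f c'‖ ≤ K * ‖c - c'‖

/-- [FC-NL] Locally Lipschitz maps on a set do not increase null sets.
Proof.  Cover `t` by countably many balls `ball c r` as in the hypothesis (Lindelöf); on
`t ∩ ball c r` the map is Lipschitz, and images of null sets under Lipschitz maps on subsets of
`E n` are null (`LipschitzOnWith` and Hausdorff measure, or extend coordinatewise). -/
def NullLL : Prop :=
  ∀ (n : ℕ) (s : Set (E n)) (f : E n → E n),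
    (∀ c₀ ∈ s, ∃ r K : ℝ, 0 < r ∧ ∀ c ∈ s ∩ ball c₀ r, ∀ c' ∈ s ∩ ball c₀ r,
      ‖f c - f c'‖ ≤ K * ‖c - c'‖) →
    ∀ t ⊆ s, volume t = 0 → volume (f '' t) = 0

/-- [FC-ME] Measurability of the set of parameters whose function has a centre (uses `GGLip`,
`GGDer` for continuity in `p`).
Proof.  For `ρ < 1` the set `{c ∈ U | ∃ p, ‖p‖ ≤ ρ ∧ GG p (φ c) = 0}` is relatively closed in `U`:
if `c_k → c ∈ U` with zeros `p_k`, a subsequence of `p_k` converges to `p`, `‖p‖ ≤ ρ`, and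
`‖GG p_k (φ c_k) - GG p_k (φ c)‖ ≤ K‖c_k-c‖K'`, `GG p_k (φ c) → GG p (φ c)`.  Take the union over
`ρ = 1-1/(k+1)`. -/
def MeasS : Prop :=
  ∀ (n : ℕ) (U : Set (E n)) (φ : E n → E n → ℝ), IsOpen U → LipFam U φ →
    ∀ D : Set (E n), MeasurableSet D → D ⊆ U →
    MeasurableSet {c | c ∈ D ∧ ∃ p : E n, ‖p‖ < 1 ∧ GG p (φ c) = 0}

/-- [FC-WA] Weighted area inequality.
Proof.  `addHaar_image_le_lintegral_abs_det_fderiv` for the measurable sets `s ∩ f⁻¹(A)` (`f` is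
continuous on `s`), `A` measurable, gives `μ(f(s) ∩ A) ≤ ∫_{s ∩ f⁻¹A} |det f'|`; write `w` as a
countable sum of constants times indicators of measurable sets. -/
def WArea : Prop :=
  ∀ (n : ℕ) (s : Set (E n)) (f : E n → E n) (f' : E n → E n →L[ℝ] E n), MeasurableSet s →
    (∀ x ∈ s, HasFDerivWithinAt f (f' x) s x) → ∀ w : E n → ENNReal, Measurable w →
    ∫⁻ y in f '' s, w y ≤ ∫⁻ x in s, ENNReal.ofReal |(f' x).det| * w (f x)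

/-- [FC-CA] The estimate in one chart (from `CenterDiff`, `CenterLip`, `NullLL`, `MeasS`, `WArea`).
Proof.  `s` is measurable (`MeasS`).  Let `N` be a measurable null set containing the exceptional
set of the last hypothesis.  On `s \ N` `f` has the derivative `f'` of `CenterDiff` (differentiability
within `s` implies differentiability within `s \ N`), so by `WArea` with `w = ofReal (lf ·)`
`∫⁻ y in f '' (s \ N), lf y ≤ ∫⁻ c in s \ N, |det f'| lf (f c) ≤ (100/81) ∫⁻ c in s \ N, √det G`;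
`f '' (s ∩ N)` is a null set by `CenterLip` and `NullLL`. -/
def ChartArea : Prop :=
  ∀ (n : ℕ), 0 < n → ∀ (U : Set (E n)) (φ : E n → E n → ℝ), IsOpen U → LipFam U φ →
    ∀ G : E n → Matrix (Fin n) (Fin n) ℝ, (∀ c ∈ U, (G c).PosDef) →
    (∀ᵐ c ∂(volume : Measure (E n)), c ∈ U → ∃ D, GoodD φ c (G c) D) →
    ∀ D : Set (E n), MeasurableSet D → D ⊆ U → ∀ (s : Set (E n)) (f : E n → E n),
    s = {c | c ∈ D ∧ ∃ p : E n, ‖p‖ < 1 ∧ GG p (φ c) = 0} →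
    (∀ c ∈ s, ‖f c‖ < 1 ∧ GG (f c) (φ c) = 0) →
    ∫⁻ p in f '' s, ENNReal.ofReal (lf p) ≤
      ENNReal.ofReal (100 / 81) * ∫⁻ c in D, ENNReal.ofReal √(G c).det

/-- [FC-RM] A homogeneous Lipschitz map which undoes the boost on the unit sphere (uses
`BoostAlg`).
Proof.  `R v = (‖v‖/(γ(‖v‖+⟨p,v⟩))) • NN p (v + ‖v‖ p)`, `R 0 = 0` (`γ = lf p`).  Let
`a(v) = ‖v‖/(‖v‖+⟨p,v⟩) ≤ 1/(1-‖p‖)`; `R v = γ⁻¹ N_p(a(v)v + a(v)‖v‖p)`.
`|a(v)-a(w)| = |‖v‖⟨p,w⟩-‖w‖⟨p,v⟩|/((..)(..)) ≤ 2‖v‖‖v-w‖/((1-‖p‖)²‖v‖‖w‖)`, so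
`‖a(v)v-a(w)w‖ ≤ a(v)‖v-w‖ + |a(v)-a(w)|‖w‖ ≤ (1/(1-‖p‖) + 2/(1-‖p‖)²)‖v-w‖`, and the same for
`a(v)‖v‖`.  `R v = 0`, `v ≠ 0` would give `v = -‖v‖p`, `‖p‖ = 1`.  For `‖x‖ = 1` and
`x̂ = (γ(1-⟨p,x⟩))⁻¹ N_p(x-p)`: `‖x̂‖ = 1`, `1+⟨p,x̂⟩ = (γ²(1-⟨p,x⟩))⁻¹`,
`N_p(x̂+p) = x/(γ(1-⟨p,x⟩))` (use `N_p² v = v+γ²⟨p,v⟩p`, `N_p p = γp`), so `R x̂ = x`. -/
def RMap : Prop :=
  ∀ (n : ℕ) (p : E n), ‖p‖ < 1 → ∃ (R : E n → E n) (K : ℝ), 0 ≤ K ∧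
    (∀ v w, ‖R v - R w‖ ≤ K * ‖v - w‖) ∧ (∀ v, R v = 0 → v = 0) ∧
    ∀ x : E n, ‖x‖ = 1 → R ((lf p * (1 - inner ℝ p x))⁻¹ • NN p (x - p)) = x

/-- [FC-PF] The functions `FF bd q` (uses `UFacts`, proved as `uF` in `Pool.Agent.W716.FV.Final`).
Proof.  `UU bd q` is positively homogeneous and `1`-Lipschitz, `FF` is its odd part.
`UU bd (bd x) y = ⟨y,x⟩`; `|UU bd q y-UU bd q' y| ≤ ‖y‖ dist q q'`. -/
def PhiFacts : Prop :=
  ∀ (n : ℕ), 0 < n → ∀ (M : Type) [MetricSpace M] (bd : Sph n → M),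
    (∀ x y : Sph n, angle (x : E n) (y : E n) ≤ dist (bd x) (bd y)) →
    (∀ q, Cc (FF bd q)) ∧ (∀ (x : Sph n) (y : E n), FF bd (bd x) y = inner ℝ y (x : E n)) ∧
    (∀ (q q' : M) (y : E n), |FF bd q y - FF bd q' y| ≤ dist q q' * ‖y‖)

/-- [FC-PC] The functions `FF` in a chart (uses `PhiFacts`, `BChart` (`bC` in
`Pool.Agent.W716.FV.Final`), `TaskLoc` (`Pool.Agent.H241R3.FV.TLoc`), `gnorm_le`).
Proof.  Local Lipschitz property: `TaskLoc` with `ε = 1` and `gnorm_le`.  Derivative: for almost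
all `y` both `y` and `-y` are good points in `BChart`; `D'(y) = (D(y)-D(-y))/2`.  With
`u₁ = UU q y`, `u₂ = UU q (-y)`, `r = ‖y‖`, `g = ∑ v i G i j v j`:
`|D'(y)v| ≤ (√(r²-u₁²)+√(r²-u₂²))√g/2 ≤ √(r²-((u₁-u₂)/2)²)√g` since
`(√(r²-u₁²)+√(r²-u₂²))² ≤ 4r²-(u₁-u₂)²` (equivalent to
`√(r²-u₁²)√(r²-u₂²) ≤ r²+u₁u₂`). -/
def PhiChart : Prop :=
  ∀ (n : ℕ), 0 < n → ∀ (M : Type) [MetricSpace M] (bd : Sph n → M),
    (∀ x y : Sph n, angle (x : E n) (y : E n) ≤ dist (bd x) (bd y)) → ∀ C : RChart n M,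
    LipFam C.U (fun c => FF bd (C.map c)) ∧
    ∀ᵐ c ∂(volume : Measure (E n)), c ∈ C.U →
      ∃ D, GoodD (fun c' => FF bd (C.map c')) c (C.G c) D

/-- [FC-CC] Covering (uses `RMap`, `PhiFacts`, `BoostAlg`, `HatLin`, `GGHat`, `GGLip`, second
moments of `gam`, and `TaskCover`, `TaskCoverT` of `Pool.Agent.H241R3.FV`, proved in
`TCover.lean`, `TCoverT.lean`).
Proof.  `m(q) = lf p • NI p (GG p (FF bd q))`, `Φ(q) = R(m(q))`.  `m` is Lipschitz by `GGLip`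
(`δ = dist q q'`).  At the boundary `FF bd (bd x) = ⟨·,x⟩` has the hat `⟨·,x̂⟩`, `x̂ = (lf p
(1-⟨p,x⟩))⁻¹ • NN p (x-p)`, `mv ⟨·,x̂⟩ = x̂`, so by `GGHat` `m(bd x) = x̂` and `Φ(bd x) = x`.  By
the covering theorems (`l = 1`) `0 ∈ range Φ`; `Φ(q) = 0` gives `m(q) = 0`, so
`GG p (FF bd q) = 0` (`NN p (NI p v) = v`). -/
def CoverC : Prop :=
  ∀ (d : ℕ), 1 ≤ d → ∀ (M : Type) [MetricSpace M] [CompactSpace M] (S : Fill d M), S.NonShort →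
    (S.Triangulated ∨ S.NoRetraction) → ∀ p : E (d + 1), ‖p‖ < 1 →
    ∃ q : M, GG p (FF S.bd q) = 0

/-- [FC-BI] The area of the hemisphere in the Klein parametrisation.
Proof.  The ball is the vertical projection of the upper hemisphere; or polar coordinates on both
sides: with `ω_n` the volume of the unit ball `∫ = n ω_n ∫_0^1 r^(n-1) (1-r²)^(-1/2) dr =
n ω_n Γ(n/2) √π / (2 Γ((n+1)/2))`, and `toSphere univ = (n+1) ω_{n+1}`,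
`ω_n = π^(n/2)/Γ(n/2+1)`. -/
def BallInt : Prop :=
  ∀ (n : ℕ), 0 < n → ∫⁻ p in ball (0 : E n) 1, ENNReal.ofReal (lf p) =
    (volume : Measure (EuclideanSpace ℝ (Fin (n + 1)))).toSphere Set.univ / 2

/-- The main theorem (from `ChartArea`, `PhiChart`, `PhiFacts`, `CoverC`, `BallInt`, `HatLin`,
`GGHat`).
Proof.  For a chart `i` let `s_i = {c ∈ D_i | ∃ p, ‖p‖ < 1 ∧ GG p (φ_c) = 0}` and `f_i(c)` such a
`p`; by uniqueness (`LocZ` with `φ = φ' = φ₀`, `δ = 0`) it is the only one.  For every `p` in the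
ball there is `q ∈ M` with `GG p (FF bd q) = 0`; `q` is not on the boundary (there
`GG p ⟨·,x⟩ = γ⁻¹N_p x̂ ≠ 0`), so `q = map_i c` with `c ∈ D_i` and `p = f_i(c)`.  Hence the ball is
covered by the sets `f_i(s_i)` and
`∫⁻ p in ball 0 1, lf p ≤ ∑ (100/81) ∫⁻ c in D_i, √det G = (100/81) vol`. -/
def MainC : Prop :=
  ∀ (d : ℕ), 1 ≤ d → ∀ (M : Type) [MetricSpace M] [CompactSpace M] (S : Fill d M), S.NonShort →
    (S.Triangulated ∨ S.NoRetraction) →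
    ENNReal.ofReal (81 / 100) *
      ((volume : Measure (EuclideanSpace ℝ (Fin (d + 2)))).toSphere Set.univ / 2) ≤ S.vol

end Pool.Agent.Q188.FC
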