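import Pool.Agent.Q188.FC.BetStm

/-!
# The estimate in one chart with the constant `200/163`

Copied from `Pool.Agent.Q53.FC.CA` with the constant `200/163` in place of `100/81`.
-/

set_option autoImplicit false

open MeasureTheory Set Metric

namespace Pool.Agent.Q188.FC.Bet.CA

open Pool.Agent.W716.FV (E)

theorem lf_measurable (n : ℕ) : Measurable (fun p : E n => ENNReal.ofReal (lf p)) := by
  unfold lf
  fun_prop

theorem main (h1 : CenterDiff) (h2 : CenterLip) (h3 : NullLL) (h4 : MeasS) (h5 : WArea) :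
    ChartArea := by
  intro n hn U φ hU hφ G hG hae D hD hDU s f hs hf
  have hsm : MeasurableSet s := by
    rw [hs]
    exact h4 n U φ hU hφ D hD hDU
  have hsD : s ⊆ D := by
    rw [hs]
    exact fun c hc => hc.1
  have hsU : s ⊆ U := hsD.trans hDU
  set N : Set (E n) := toMeasurable volume {c | ¬ (c ∈ U → ∃ D, GoodD φ c (G c) D)} with hN
  have hN0 : volume N = 0 := by
    rw [hN, measure_toMeasurable]
    exact hae
  have hNm : MeasurableSet N := measurableSet_toMeasurable _ _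
  have hgood : ∀ c ∈ s \ N, ∃ D, GoodD φ c (G c) D := by
    intro c hc
    by_contra hcon
    apply hc.2
    apply subset_toMeasurable
    intro hh
    exact hcon (hh (hsU hc.1))
  have hder : ∀ c : E n, ∃ f' : E n →L[ℝ] E n, c ∈ s \ N → HasFDerivWithinAt f f' (s \ N) c ∧
      |f'.det| ≤ 200 / 163 * (lf (f c))⁻¹ * √(G c).det := by
    intro c
    by_cases hc : c ∈ s \ N
    · obtain ⟨f', h6, h7⟩ := h1 n hn U φ hU hφ s f hsU hf c hc.1 (G c) (hG c (hsU hc.1))
        (hgood c hc)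
      exact ⟨f', fun _ => ⟨h6.mono sdiff_subset, h7⟩⟩
    · exact ⟨0, fun h => absurd h hc⟩
  choose f' hf' using hder
  have hA := h5 n (s \ N) f f' (hsm.diff hNm) (fun x hx => (hf' x hx).1)
    (fun p => ENNReal.ofReal (lf p)) (lf_measurable n)
  have hnull : volume (f '' (s ∩ N)) = 0 := by
    refine h3 n s f ?_ (s ∩ N) inter_subset_left (measure_mono_null inter_subset_right hN0)
    exact h2 n U φ hU hφ s f hsU hf
  have hsub : f '' s ⊆ f '' (s \ N) ∪ f '' (s ∩ N) := by
    rintro _ ⟨x, hx, rfl⟩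
    by_cases hxN : x ∈ N
    · exact Or.inr ⟨x, ⟨hx, hxN⟩, rfl⟩
    · exact Or.inl ⟨x, ⟨hx, hxN⟩, rfl⟩
  have hpt : ∀ x ∈ s \ N, ENNReal.ofReal |(f' x).det| * ENNReal.ofReal (lf (f x)) ≤
      ENNReal.ofReal (200 / 163) * ENNReal.ofReal √(G x).det := by
    intro x hx
    have hlf : 0 < lf (f x) := by
      unfold lf
      have hx1 := (hf x hx.1).1
      apply inv_pos.2
      apply Real.sqrt_pos.2
      have := norm_nonneg (f x)
      nlinarith
    rw [← ENNReal.ofReal_mul (abs_nonneg _), ← ENNReal.ofReal_mul (by norm_num)]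
    refine ENNReal.ofReal_le_ofReal ?_
    calc |(f' x).det| * lf (f x) ≤ 200 / 163 * (lf (f x))⁻¹ * √(G x).det * lf (f x) :=
          mul_le_mul_of_nonneg_right (hf' x hx).2 hlf.le
      _ = 200 / 163 * √(G x).det := by
          field_simp
  calc ∫⁻ p in f '' s, ENNReal.ofReal (lf p)
      ≤ ∫⁻ p in f '' (s \ N) ∪ f '' (s ∩ N), ENNReal.ofReal (lf p) := lintegral_mono_set hsub
    _ ≤ (∫⁻ p in f '' (s \ N), ENNReal.ofReal (lf p)) +
        ∫⁻ p in f '' (s ∩ N), ENNReal.ofReal (lf p) := lintegral_union_le _ _ _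
    _ = ∫⁻ p in f '' (s \ N), ENNReal.ofReal (lf p) := by
        rw [setLIntegral_measure_zero _ _ hnull, add_zero]
    _ ≤ ∫⁻ x in s \ N, ENNReal.ofReal |(f' x).det| * ENNReal.ofReal (lf (f x)) := hA
    _ ≤ ∫⁻ x in s \ N, ENNReal.ofReal (200 / 163) * ENNReal.ofReal √(G x).det :=
        setLIntegral_mono' (hsm.diff hNm) hpt
    _ ≤ ∫⁻ x in D, ENNReal.ofReal (200 / 163) * ENNReal.ofReal √(G x).det :=
        lintegral_mono_set (sdiff_subset.trans hsD)
    _ = ENNReal.ofReal (200 / 163) * ∫⁻ c in D, ENNReal.ofReal √(G c).det :=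
        lintegral_const_mul' _ _ ENNReal.ofReal_ne_top

end Pool.Agent.Q188.FC.Bet.CA
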