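import Pool.Agent.Q188.FC.BetStm

/-!
# Differentiability of the centre with the constant `200/163`

Copied from `Pool.Agent.Q190.FC.CF` with the constant `200/163` in place of `100/81`.
-/

set_option autoImplicit false

open MeasureTheory Metric Set Filter Topology

namespace Pool.Agent.Q188.FC.Bet.CF

open Pool.Agent.W716.FV (E gam gd UU)

theorem det_neg_comp {n : ℕ} (A T L : E n →L[ℝ] E n) (hL : L.det ≠ 0) (hA : L.comp A = -T) :
    |A.det| = |T.det| / |L.det| := by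
  have h1 : (L.comp A).det = L.det * A.det := by
    simp only [ContinuousLinearMap.det]
    rw [← LinearMap.det_comp]
    rfl
  have h2 : |(-T).det| = |T.det| := by
    simp only [ContinuousLinearMap.det]
    have h3 : ((-T : E n →L[ℝ] E n) : E n →ₗ[ℝ] E n) = (-1 : ℝ) • (T : E n →ₗ[ℝ] E n) := by
      ext v
      simp
    rw [h3, LinearMap.det_smul, abs_mul]
    simp
  rw [hA] at h1
  rw [← h2, h1, abs_mul, mul_div_cancel_left₀ _ (abs_ne_zero.2 hL)]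

theorem main (h1 : LocZ) (h2 : GGDer) (h3 : GGStrict) (h4 : GGChart) (h5 : JacF) : CenterDiff := by
  intro n hn U φ hU hφ s f hsU hf c₀ hc₀ G hG hD
  obtain ⟨D, hDm, hDd⟩ := hD
  obtain ⟨hcc, hloc⟩ := hφ
  obtain ⟨r₀, K₀, hr₀, hK₀, hball, hlip⟩ := hloc c₀ (hsU hc₀)
  obtain ⟨hp₀, hz₀⟩ := hf c₀ hc₀
  set p₀ := f c₀ with hp₀d
  obtain ⟨L, hL, -⟩ := h2 n (φ c₀) (hcc c₀) p₀ hp₀
  obtain ⟨T, hT, hTv⟩ := h4 n p₀ hp₀ φ hcc c₀ r₀ K₀ hr₀
    (fun c hc y => hlip c hc c₀ (mem_ball_self hr₀) y) D hDm (hDd.mono fun y hy => hy.1)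
  obtain ⟨hL0, hdet⟩ := h5 n hn p₀ hp₀ (φ c₀) (hcc c₀) hz₀ L hL G hG D hDm
    (hDd.mono fun y hy => hy.2) T hTv
  set Le : E n ≃L[ℝ] E n := L.toContinuousLinearEquivOfDetNeZero hL0 with hLe
  have hLe1 : ∀ v, Le v = L v := fun v => rfl
  have hLe2 : ∀ v, L (Le.symm v) = v := fun v => by rw [← hLe1, Le.apply_symm_apply]
  refine ⟨-((Le.symm : E n →L[ℝ] E n).comp T), ?_, ?_⟩
  · -- local Lipschitz constant
    obtain ⟨r, K, hr, hK, hLZ⟩ := h1 n (φ c₀) (hcc c₀) p₀ hp₀ hz₀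
    obtain ⟨Cs, hCs0, hCs⟩ : ∃ Cs : ℝ, 0 < Cs ∧ ∀ v, ‖Le.symm v‖ ≤ Cs * ‖v‖ := by
      refine ⟨‖(Le.symm : E n →L[ℝ] E n)‖ + 1, by positivity, fun v => ?_⟩
      have := (Le.symm : E n →L[ℝ] E n).le_opNorm v
      have h6 : ‖(Le.symm : E n →L[ℝ] E n)‖ * ‖v‖ ≤ (‖(Le.symm : E n →L[ℝ] E n)‖ + 1) * ‖v‖ := by
        gcongr
        linarith
      exact this.trans h6
    rw [hasFDerivWithinAt_iff_isLittleO, Asymptotics.isLittleO_iff]
    intro ε hε
    set ε₁ : ℝ := ε / (2 * Cs * (K * K₀ + 1)) with hε₁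
    have hε₁0 : 0 < ε₁ := by positivity
    set ε₂ : ℝ := ε / (2 * Cs) with hε₂
    have hε₂0 : 0 < ε₂ := by positivity
    obtain ⟨δ, hδ, -, hst⟩ := h3 n (φ c₀) (hcc c₀) p₀ hp₀ L hL ε₁ hε₁0
    rw [hasFDerivAt_iff_isLittleO, Asymptotics.isLittleO_iff] at hT
    have hT' := hT hε₂0
    set ρ : ℝ := min r₀ (min (r / (K₀ + 1)) (min (δ / (K₀ + 1)) (δ / (K * K₀ + 1)))) with hρ
    have hρ0 : 0 < ρ := by
      rw [hρ]
      refine lt_min hr₀ (lt_min ?_ (lt_min ?_ ?_)) <;> positivity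
    have hρ1 : ρ ≤ r₀ := min_le_left _ _
    have hρ2 : ρ ≤ r / (K₀ + 1) := (min_le_right _ _).trans (min_le_left _ _)
    have hρ3 : ρ ≤ δ / (K₀ + 1) := (min_le_right _ _).trans ((min_le_right _ _).trans (min_le_left _ _))
    have hρ4 : ρ ≤ δ / (K * K₀ + 1) := (min_le_right _ _).trans ((min_le_right _ _).trans (min_le_right _ _))
    filter_upwards [self_mem_nhdsWithin, mem_nhdsWithin_of_mem_nhds (ball_mem_nhds c₀ hρ0),
      mem_nhdsWithin_of_mem_nhds hT'] with c hcs hcb hcT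
    obtain ⟨hp, hz⟩ := hf c hcs
    set p := f c with hpd
    rw [mem_ball, dist_eq_norm] at hcb
    have hcr : c ∈ ball c₀ r₀ := by
      rw [mem_ball, dist_eq_norm]
      linarith
    have hcl : ∀ y, |φ c y - φ c₀ y| ≤ K₀ * ‖c - c₀‖ * ‖y‖ := fun y => hlip c hcr c₀ (mem_ball_self hr₀) y
    have hKc : K₀ * ‖c - c₀‖ ≤ r := by
      have h6 : (K₀ + 1) * ‖c - c₀‖ ≤ r := by
        have := hcb.le.trans hρ2
        rw [le_div_iff₀ (by positivity)] at this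
        linarith
      nlinarith [norm_nonneg (c - c₀)]
    have hKδ : K₀ * ‖c - c₀‖ ≤ δ := by
      have h6 : (K₀ + 1) * ‖c - c₀‖ ≤ δ := by
        have := hcb.le.trans hρ3
        rw [le_div_iff₀ (by positivity)] at this
        linarith
      nlinarith [norm_nonneg (c - c₀)]
    have hpp : ‖p - p₀‖ ≤ K * (K₀ * ‖c - c₀‖) :=
      hLZ (φ c) (φ c₀) (hcc c) (hcc c₀) (fun y => (hcl y).trans (by gcongr)) (fun y => by simp; positivity)
        p p₀ hp hp₀ hz hz₀ (K₀ * ‖c - c₀‖) (by positivity) hcl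
    have hpδ : ‖p - p₀‖ < δ := by
      have h6 : ‖c - c₀‖ < δ / (K * K₀ + 1) := lt_of_lt_of_le hcb hρ4
      rw [lt_div_iff₀ (by positivity)] at h6
      nlinarith [norm_nonneg (c - c₀)]
    have hst' := hst (φ c) (hcc c) (fun y => (hcl y).trans (by gcongr)) p
      (by rw [mem_ball, dist_eq_norm]; exact hpδ) p₀ (mem_ball_self hδ)
    rw [hz, zero_sub] at hst'
    -- the identity
    have hid : p - p₀ - (-((Le.symm : E n →L[ℝ] E n).comp T)) (c - c₀) =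
        Le.symm ((L (p - p₀) + GG p₀ (φ c)) - (GG p₀ (φ c) - GG p₀ (φ c₀) - T (c - c₀))) := by
      apply Le.injective
      rw [Le.apply_symm_apply, hLe1, map_sub]
      simp only [ContinuousLinearMap.neg_apply, ContinuousLinearMap.comp_apply, map_neg]
      have h7 : L ((Le.symm : E n →L[ℝ] E n) (T (c - c₀))) = T (c - c₀) := hLe2 _
      rw [h7, hz₀]
      abel
    rw [hid]
    refine (hCs _).trans ?_
    have h8 : ‖(L (p - p₀) + GG p₀ (φ c)) - (GG p₀ (φ c) - GG p₀ (φ c₀) - T (c - c₀))‖ ≤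
        ε₁ * ‖p - p₀‖ + ε₂ * ‖c - c₀‖ := by
      refine (norm_sub_le _ _).trans (add_le_add ?_ hcT)
      have h9 : ‖L (p - p₀) + GG p₀ (φ c)‖ = ‖-GG p₀ (φ c) - L (p - p₀)‖ := by
        rw [← norm_neg]
        congr 1
        abel
      rw [h9]
      exact hst'
    calc Cs * ‖(L (p - p₀) + GG p₀ (φ c)) - (GG p₀ (φ c) - GG p₀ (φ c₀) - T (c - c₀))‖
        ≤ Cs * (ε₁ * (K * (K₀ * ‖c - c₀‖)) + ε₂ * ‖c - c₀‖) := by
          gcongr
          refine h8.trans ?_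
          gcongr
      _ = (Cs * ε₁ * (K * K₀) + Cs * ε₂) * ‖c - c₀‖ := by ring
      _ ≤ (Cs * ε₁ * (K * K₀ + 1) + Cs * ε₂) * ‖c - c₀‖ := by
          gcongr
          linarith
      _ = ε * ‖c - c₀‖ := by
          rw [hε₁, hε₂]
          field_simp
          ring
  · have h6 : L.comp (-((Le.symm : E n →L[ℝ] E n).comp T)) = -T := by
      ext v
      simp only [ContinuousLinearMap.comp_apply, ContinuousLinearMap.neg_apply, map_neg]
      have h7 : L ((Le.symm : E n →L[ℝ] E n) (T v)) = T v := hLe2 _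
      rw [h7]
    rw [det_neg_comp _ T L hL0 h6, div_le_iff₀ (abs_pos.2 hL0)]
    calc |T.det| ≤ 200 / 163 * (lf p₀)⁻¹ * |L.det| * √G.det := hdet
      _ = _ := by ring

end Pool.Agent.Q188.FC.Bet.CF
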