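import Pool.Agent.Q188.FC.BetStm
import Pool.Agent.Q280.FC.SC

/-!
# The Gaussian inequality with the constant `200/163`

Copied from `Pool.Agent.Q280.FC.SC` with the constant `200/163` in place of `100/81`.
-/

set_option autoImplicit false

open MeasureTheory

namespace Pool.Agent.Q188.FC.Bet.GF

open Pool.Agent.W716.FV (E gam gd)

theorem main (h1 : CcBasic) (h2 : CcMom) (h3 : SXc) (h4 : BIneq) (h5 : NumFin)
    (h6 : DetLog) : GaussFinal := by
  intro n φ hφ hm p hp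
  have hs0 : 0 ≤ sv φ := (h1 n φ hφ).2.2.2.2.2.2.2.2
  obtain ⟨htr, hsym, -, -⟩ := h2 n φ hφ
  obtain ⟨hs3, hv⟩ := h3 n φ hφ hm
  have hv0 : 0 ≤ hs (Xm φ) := Pool.Agent.Q280.FC.hs_nonneg _
  obtain ⟨b, hb, hbp⟩ : ∃ b : ℝ, (∀ ε : ℝ, 3 * sv φ + 16 * ε * b ≤
      1 + ε ^ 2 * (4 * (sv φ + 2 * √(hs (Xm φ))) + 4 * hs (Xm φ))) ∧ |bv φ p| ≤ |b| := by
    rcases eq_or_ne p 0 with h | h
    · refine ⟨0, fun ε => ?_, ?_⟩
      · have : 0 ≤ ε ^ 2 * (4 * (sv φ + 2 * √(hs (Xm φ))) + 4 * hs (Xm φ)) := by positivity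
        linarith
      · rw [h]
        simp [bv]
    · have hp0 : 0 < ‖p‖ := norm_pos_iff.2 h
      refine ⟨bv φ (‖p‖⁻¹ • p), fun ε => h4 n φ hφ hm _ ?_ ε, ?_⟩
      · rw [norm_smul, norm_inv, norm_norm, inv_mul_cancel₀ hp0.ne']
      · have e : bv φ p = ‖p‖ * bv φ (‖p‖⁻¹ • p) := by
          have e2 : ∫ z, (inner ℝ p z : ℝ) * φ z ^ 3 ∂(gam n) =
              ∫ z, ‖p‖ * ((inner ℝ (‖p‖⁻¹ • p) z : ℝ) * φ z ^ 3) ∂(gam n) := by
            congr 1; ext z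
            rw [real_inner_smul_left]
            field_simp
          unfold bv
          rw [e2, integral_const_mul]
          ring
        rw [e, abs_mul, abs_of_nonneg hp0.le]
        exact mul_le_of_le_one_left (abs_nonneg _) hp
  obtain ⟨hv36, hlog⟩ := h5 (sv φ) (hs (Xm φ)) b hs0 hs3 hv0 hv hb
  have hdet := h6 n (Xm φ) hsym hv36
  rw [htr] at hdet
  have hbp' := neg_abs_le (bv φ p)
  have e1 : Real.exp (-(sv φ + bv φ p) / 2) ≤
      Real.exp (Real.log (200 / 163) + -(sv φ + 3 / 5 * hs (Xm φ))) := by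
    apply Real.exp_le_exp.2
    linarith
  rw [Real.exp_add, Real.exp_log (by norm_num)] at e1
  exact e1.trans (mul_le_mul_of_nonneg_left hdet (by norm_num))

end Pool.Agent.Q188.FC.Bet.GF
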