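import Pool.Agent.Q188.FC.BetStm

/-!
# The numerical inequality with the constant `200/163`
-/

set_option autoImplicit false

namespace Pool.Agent.Q188.FC.Bet.NF

theorem log_lb : (2045 / 10000 : ℝ) ≤ Real.log (200 / 163) := by
  have h1 := Real.abs_log_sub_add_sum_range_le (x := (37 / 200 : ℝ)) (by norm_num [abs_lt]) 6
  rw [Finset.sum_range_succ, Finset.sum_range_succ, Finset.sum_range_succ,
    Finset.sum_range_succ, Finset.sum_range_succ, Finset.sum_range_succ, Finset.sum_range_zero,
    abs_of_nonneg (by norm_num : (0 : ℝ) ≤ 37 / 200)] at h1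
  have h2 := le_of_abs_le h1
  norm_num at h2
  have h3 : Real.log (200 / 163) = -(Real.log (163 / 200)) := by
    have : (200 / 163 : ℝ) = (163 / 200)⁻¹ := by norm_num
    rw [this, Real.log_inv]
  rw [h3]
  linarith

theorem main : NumFin := by
  intro s v b hs hs3 hv hvs hε
  have h1s : 0 < 2 * (1 + s) := by linarith
  have hvs' : v * (2 * (1 + s)) ≤ s * (1 - 9 * s ^ 2) := by
    rwa [le_div_iff₀ h1s] at hvs
  constructor
  · -- the first bound
    have h1 : s * (1 - 9 * s ^ 2) ≤ 36 / 625 * (2 * (1 + s)) := by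
      nlinarith [mul_nonneg hs (sq_nonneg (s - 9 / 50)), sq_nonneg (s - 9 / 50)]
    by_contra hcon
    push Not at hcon
    have := mul_lt_mul_of_pos_right hcon h1s
    linarith
  · have hp := hε (3 / 10)
    have hm := hε (-(3 / 10))
    set w := √v with hw
    have hw2 : w ^ 2 = v := Real.sq_sqrt hv
    have hw0 : 0 ≤ w := Real.sqrt_nonneg v
    -- 8 w ≤ 4 (v / c + c), c = 429/2000
    have hc : 8 * w ≤ 4 * (v * (2000 / 429) + 429 / 2000) := by
      rw [← hw2]
      nlinarith [sq_nonneg (w * 2000 - 429)]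
    have hb : |b| ≤ (1 - 3 * s + 9 / 100 * (4 * s + 8 * w + 4 * v)) / (24 / 5) := by
      rw [abs_le]
      constructor
      · rw [neg_le, ← sub_nonneg]
        nlinarith
      · rw [le_div_iff₀ (by norm_num)]
        nlinarith
    have hcube : v * (81233 / 100000) ≤ 9228 / 100000 - 225 / 1000 * s := by
      have h2 : s * (1 - 9 * s ^ 2) * (81233 / 100000) ≤
          (9228 / 100000 - 225 / 1000 * s) * (2 * (1 + s)) := by
        nlinarith [mul_nonneg hs (sq_nonneg (s - 243 / 1000)), sq_nonneg (s - 243 / 1000)]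
      by_contra hcon
      push Not at hcon
      have := mul_lt_mul_of_pos_right hcon h1s
      nlinarith
    have hl := log_lb
    have : s / 2 + |b| / 2 + 3 / 5 * v ≤ 2045 / 10000 := by
      nlinarith
    linarith

end Pool.Agent.Q188.FC.Bet.NF
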