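import Pool.Agent.Q188.FC.StmC
import Pool.Agent.Q128.FC.TL
import Pool.Agent.Q128.FC.GO
import Pool.Agent.Q162.FC.PL
import Pool.Agent.Q162.FC.CD
import Pool.Agent.Q162.FC.GI
import Pool.Agent.Q26.FC.NSM
import Pool.Agent.Q26.FC.NCS
import Pool.Agent.Q149.FC.SA
import Pool.Agent.Q149.FC.B
import Pool.Agent.Q149.FC.GM
import Pool.Agent.Q299.FC.DT
import Pool.Agent.Q299.FC.DD
import Pool.Agent.Q299.FC.DL
import Pool.Agent.Q299.FC.NL
import Pool.Agent.Q299.FC.MO
import Pool.Agent.Q272.FC.BA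
import Pool.Agent.Q272.FC.KD
import Pool.Agent.Q272.FC.KB
import Pool.Agent.Q272.FC.HE
import Pool.Agent.Q272.FC.HL
import Pool.Agent.Q190.FC.GC
import Pool.Agent.Q190.FC.LZ
import Pool.Agent.Q280.FC.XU
import Pool.Agent.Q280.FC.SB
import Pool.Agent.Q280.FC.SP
import Pool.Agent.Q280.FC.SC
import Pool.Agent.Q280.FC.CB
import Pool.Agent.Q53.FC.CM
import Pool.Agent.Q53.FC.PC
import Pool.Agent.Q53.FC.MC
import Pool.Agent.Q53.FC.CC
import Pool.Agent.Q53.FC.ME
import Pool.Agent.Q53.FC.GH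
import Pool.Agent.Q53.FC.WA
import Pool.Agent.Q53.FC.PF
import Pool.Agent.Q53.FC.CL
import Pool.Agent.Q53.FC.BI
import Pool.Agent.Q272.FC.RM
import Pool.Agent.Q272.FC.GL
import Pool.Agent.Q182.FC.GD
import Pool.Agent.Q38.FC.GS
import Pool.Agent.Q188.FC.BetNF
import Pool.Agent.Q188.FC.BetGF
import Pool.Agent.Q188.FC.BetJF
import Pool.Agent.Q188.FC.BetCF
import Pool.Agent.Q188.FC.BetCA
import Pool.Agent.Q188.FC.BetMC

/-!
# Assembly
-/

set_option autoImplicit false

namespace Pool.Agent.Q188.FC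

theorem pl : PLBasic := Pool.Agent.Q162.FC.PL.main
theorem ncs : NoiseCS := Pool.Agent.Q26.FC.NCS.main
theorem nsm : NoiseSmall := Pool.Agent.Q26.FC.NSM.main
theorem nc : NoiseContr := Pool.Agent.Q280.FC.mainNC ncs nsm
theorem cd : CorDeriv := Pool.Agent.Q162.FC.CD.main pl
theorem spo : SPOdd := (Pool.Agent.Q280.FC.mainSP pl nc cd).1
theorem spe : SPEven := (Pool.Agent.Q280.FC.mainSP pl nc cd).2
theorem cb : CcBasic := Pool.Agent.Q280.FC.mainCB pl
theorem cm : CcMom := Pool.Agent.Q53.FC.CM.main pl cb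
theorem gm : GMom := Pool.Agent.Q149.FC.GM.main pl
theorem xu : XUp := Pool.Agent.Q280.FC.mainXU pl cb spo spe
theorem sa : SXa := Pool.Agent.Q149.FC.SA.main pl cb gm spo
theorem sb : SXb := Pool.Agent.Q280.FC.mainSB pl cb gm
theorem sc : SXc := Pool.Agent.Q280.FC.mainSC cm cb sa sb
theorem bi : BIneq := Pool.Agent.Q149.FC.B.main pl cb cm spo
theorem nf : Bet.NumFin := Bet.NF.main
theorem dl : DetLog := Pool.Agent.Q299.FC.DL.main
theorem gf : Bet.GaussFinal := Bet.GF.main cb cm sc bi nf dl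

theorem ba : BoostAlg := Pool.Agent.Q272.FC.BA.main
theorem he : HatEx := Pool.Agent.Q272.FC.HE.main ba
theorem hl : HatLin := Pool.Agent.Q272.FC.HL.main ba
theorem tl : TLs := Pool.Agent.Q128.FC.TL.main ba
theorem kb : KerBound := Pool.Agent.Q272.FC.KB.main ba
theorem kd : KerDeriv := Pool.Agent.Q272.FC.KD.main ba
theorem gh : GGHat := Pool.Agent.Q53.FC.GH.main ba tl hl cb
theorem go : GGForm := Pool.Agent.Q128.FC.GO.main ba tl hl cb gm
theorem gc : GGChart := Pool.Agent.Q190.FC.GC.main ba kb kd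
theorem gi : GraphInt := Pool.Agent.Q162.FC.GI.main ba tl hl cb cm kb
theorem dd : DetD := Pool.Agent.Q299.FC.DD.main ba cm
theorem dt : DetT := Pool.Agent.Q299.FC.DT.main ba gi cb kb kd
theorem nl : NullLL := Pool.Agent.Q299.FC.NL.main
theorem wa : WArea := Pool.Agent.Q53.FC.WA.main
theorem pf : PhiFacts := Pool.Agent.Q53.FC.PF.main
theorem pc : PhiChart := Pool.Agent.Q53.FC.PC.main pf

theorem bll : BallInt := Pool.Agent.Q53.FC.BI.main
theorem rm : RMap := Pool.Agent.Q272.FC.RM.main ba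
theorem gder : GGDer := Pool.Agent.Q182.FC.main ba kb kd
theorem gstr : GGStrict := Pool.Agent.Q38.FC.GS.main ba kb kd gder
theorem gl : GGLip := Pool.Agent.Q272.FC.GL.main ba kb kd
theorem jf : Bet.JacF := Bet.JF.main ba he gh gder go dd dt gf
theorem mo : MonoF := Pool.Agent.Q299.FC.MO.main ba he gder go gh xu
theorem lz : LocZ := Pool.Agent.Q190.FC.LZ.main gder gstr gl mo
theorem cf : Bet.CenterDiff := Bet.CF.main lz gder gstr gc jf
theorem cl : CenterLip := Pool.Agent.Q53.FC.CL.main lz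
theorem me : MeasS := Pool.Agent.Q53.FC.ME.main gl gder
theorem ca : Bet.ChartArea := Bet.CA.main cf cl nl me wa
theorem cc : CoverC := Pool.Agent.Q53.FC.CC.main rm pf ba hl gh gl

/-- The volume of a compact nonshortcutting filling of the round sphere `S^d` is at least
`163/200` of the volume of the hemisphere of `S^{d+1}`. -/
theorem final : Bet.MainC := Bet.MC.main ca pc pf cc bll hl gh lz

end Pool.Agent.Q188.FC
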