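import Pool.Agent.Q188.FC.StmC

/-!
# The statements with the better constant `163/200`

The only change with respect to `StmG`, `StmK`, `StmC` is the constant `200/163` in place of
`100/81`.
-/

set_option autoImplicit false

open MeasureTheory Metric InnerProductGeometry

namespace Pool.Agent.Q188.FC.Bet

open Pool.Agent.W716.FV (E gam gd UU)
open Pool.Agent.H241R3.FV (Sph ext RChart Fill Triang act)
open Pool.Agent.Q188.FC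

/-- [FC-NF] Numerical inequality.
Proof.  `v ≤ 0.05405 ≤ 36/625`.  With `ε = ±3/10`: `|b| ≤ (1 - 3s + 9K/100)/(24/5)`,
`K = 4s + 8√v + 4v`; `8√v ≤ 4(v/c + c)`, `c = 0.232`; insert `v ≤ s(1-9s²)/(2(1+s))`; the
supremum over `s ∈ [0,1/3]` of the resulting function is `0.2042 < 0.2107 = log(100/81)`. -/
def NumFin : Prop :=
  ∀ s v b : ℝ, 0 ≤ s → s ≤ 1 / 3 → 0 ≤ v → v ≤ s * (1 - 9 * s ^ 2) / (2 * (1 + s)) →
    (∀ ε : ℝ, 3 * s + 16 * ε * b ≤ 1 + ε ^ 2 * (4 * (s + 2 * √v) + 4 * v)) →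
    v ≤ 36 / 625 ∧ s / 2 + |b| / 2 + 3 / 5 * v ≤ Real.log (200 / 163)

/-- [FC-GF] The Gaussian inequality (from `CcBasic`, `CcMom`, `SXc`, `BIneq`, `NumFin`, `DetLog`).
Proof.  `s = sv φ = tr X`, `v = hs X`.  If `p ≠ 0` let `u = p/‖p‖`, `b = bv φ u`,
`bv φ p = ‖p‖ b`, so `|bv φ p| ≤ |b|`; if `p = 0` let `b = 0 = bv φ p`.  `NumFin` gives
`v ≤ 36/625` and `s/2 + |b|/2 + 3v/5 ≤ log(100/81)`, and `DetLog`
`det(1-X) ≥ exp(-s - 3v/5) ≥ exp(-s/2 + |b|/2) 81/100`. -/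
def GaussFinal : Prop :=
  ∀ (n : ℕ) (φ : E n → ℝ), Cc φ → mv φ = 0 → ∀ p : E n, ‖p‖ ≤ 1 →
    Real.exp (-(sv φ + bv φ p) / 2) ≤ 200 / 163 * (1 - Xm φ).det

/-- [FC-JF] The Jacobian (from `BoostAlg`, `HatEx`, `GGHat`, `GGDer`, `GGForm`, `DetD`, `DetT`,
`GaussFinal`).
Proof.  `ψ` the hat; `mv ψ = 0`; `|det L| = γ² |det(1-X)|`, `det(1-X) > 0` and
`exp(-(s+b)/2) ≤ (100/81) det(1-X)`.  So `|det T| ≤ γ (100/81) det(1-X) √det G =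
(100/81) γ⁻¹ |det L| √det G`. -/
def JacF : Prop :=
  ∀ (n : ℕ), 0 < n → ∀ p : E n, ‖p‖ < 1 → ∀ φ : E n → ℝ, Cc φ → GG p φ = 0 →
    ∀ L : E n →L[ℝ] E n, HasFDerivAt (fun p' => GG p' φ) L p →
    ∀ G : Matrix (Fin n) (Fin n) ℝ, G.PosDef → ∀ D : E n → E n →L[ℝ] ℝ, Measurable D →
    (∀ᵐ y ∂(volume : Measure (E n)), ∀ v : E n,
      (D y v) ^ 2 ≤ (‖y‖ ^ 2 - φ y ^ 2) * ∑ i, ∑ j, v i * G i j * v j) →
    ∀ T : E n →L[ℝ] E n, (∀ v, T v = ∫ y, (D y v) • gk p (φ y) y) →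
    L.det ≠ 0 ∧ |T.det| ≤ 200 / 163 * (lf p)⁻¹ * |L.det| * √G.det

/-- [FC-CF] Differentiability of the centre (from `LocZ`, `GGDer`, `GGStrict`, `GGChart`, `JacF`).
Proof.  `p₀ = f c₀`, `L` the derivative of `GG · (φ c₀)` at `p₀`, `T` the derivative of
`c ↦ GG p₀ (φ c)` at `c₀` (`GGChart`), `det L ≠ 0` (`JacF`).  Let `c ∈ s`, `c → c₀`, `p = f c`;
`‖p-p₀‖ ≤ K'‖c-c₀‖` by `LocZ`.  `0 = [GG p (φ c) - GG p₀ (φ c)] + [GG p₀ (φ c) - GG p₀ (φ c₀)] =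
L(p-p₀) + o(‖p-p₀‖) + T(c-c₀) + o(‖c-c₀‖)` (`GGStrict` for the first bracket), so
`p-p₀ = -L⁻¹T(c-c₀) + o(‖c-c₀‖)`.  `f' = -L⁻¹T`, `|det f'| = |det T|/|det L|`. -/
def CenterDiff : Prop :=
  ∀ (n : ℕ), 0 < n → ∀ (U : Set (E n)) (φ : E n → E n → ℝ), IsOpen U → LipFam U φ →
    ∀ (s : Set (E n)) (f : E n → E n), s ⊆ U → (∀ c ∈ s, ‖f c‖ < 1 ∧ GG (f c) (φ c) = 0) →
    ∀ c₀ ∈ s, ∀ G : Matrix (Fin n) (Fin n) ℝ, G.PosDef → (∃ D, GoodD φ c₀ G D) →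
    ∃ f' : E n →L[ℝ] E n, HasFDerivWithinAt f f' s c₀ ∧
      |f'.det| ≤ 200 / 163 * (lf (f c₀))⁻¹ * √G.det

/-- [FC-CA] The estimate in one chart (from `CenterDiff`, `CenterLip`, `NullLL`, `MeasS`, `WArea`).
Proof.  `s` is measurable (`MeasS`).  Let `N` be a measurable null set containing the exceptional
set of the last hypothesis.  On `s \ N` `f` has the derivative `f'` of `CenterDiff` (differentiability
within `s` implies differentiability within `s \ N`), so by `WArea` with `w = ofReal (lf ·)`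
`∫⁻ y in f '' (s \ N), lf y ≤ ∫⁻ c in s \ N, |det f'| lf (f c) ≤ (100/81) ∫⁻ c in s \ N, √det G`;
`f '' (s ∩ N)` is a null set by `CenterLip` and `NullLL`. -/
def ChartArea : Prop :=
  ∀ (n : ℕ), 0 < n → ∀ (U : Set (E n)) (φ : E n → E n → ℝ), IsOpen U → LipFam U φ →
    ∀ G : E n → Matrix (Fin n) (Fin n) ℝ, (∀ c ∈ U, (G c).PosDef) →
    (∀ᵐ c ∂(volume : Measure (E n)), c ∈ U → ∃ D, GoodD φ c (G c) D) →
    ∀ D : Set (E n), MeasurableSet D → D ⊆ U → ∀ (s : Set (E n)) (f : E n → E n),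
    s = {c | c ∈ D ∧ ∃ p : E n, ‖p‖ < 1 ∧ GG p (φ c) = 0} →
    (∀ c ∈ s, ‖f c‖ < 1 ∧ GG (f c) (φ c) = 0) →
    ∫⁻ p in f '' s, ENNReal.ofReal (lf p) ≤
      ENNReal.ofReal (200 / 163) * ∫⁻ c in D, ENNReal.ofReal √(G c).det

/-- The main theorem (from `ChartArea`, `PhiChart`, `PhiFacts`, `CoverC`, `BallInt`, `HatLin`,
`GGHat`).
Proof.  For a chart `i` let `s_i = {c ∈ D_i | ∃ p, ‖p‖ < 1 ∧ GG p (φ_c) = 0}` and `f_i(c)` such a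
`p`; by uniqueness (`LocZ` with `φ = φ' = φ₀`, `δ = 0`) it is the only one.  For every `p` in the
ball there is `q ∈ M` with `GG p (FF bd q) = 0`; `q` is not on the boundary (there
`GG p ⟨·,x⟩ = γ⁻¹N_p x̂ ≠ 0`), so `q = map_i c` with `c ∈ D_i` and `p = f_i(c)`.  Hence the ball is
covered by the sets `f_i(s_i)` and
`∫⁻ p in ball 0 1, lf p ≤ ∑ (100/81) ∫⁻ c in D_i, √det G = (100/81) vol`. -/
def MainC : Prop :=
  ∀ (d : ℕ), 1 ≤ d → ∀ (M : Type) [MetricSpace M] [CompactSpace M] (S : Fill d M), S.NonShort →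
    (S.Triangulated ∨ S.NoRetraction) →
    ENNReal.ofReal (163 / 200) *
      ((volume : Measure (EuclideanSpace ℝ (Fin (d + 2)))).toSphere Set.univ / 2) ≤ S.vol

end Pool.Agent.Q188.FC.Bet
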