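import Pool.Agent.W716.FV.StmB

/-!
# Filling volume of round spheres via centres of spacelike cones: definitions

`n = d + 1` is the dimension of the filling, `E n = ℝ^n`, `gam n` the standard Gaussian measure and
`gd n` its density (both from `Pool.Agent.W716.FV`).  A point `q` of the filling is represented by
the function `φ_q = FF bd q` on `E n`; its graph is an odd, homogeneous spacelike cone in the
Minkowski space `ℝ × E n`.  For a point `p` of the unit ball (the Klein model: `p` is the direction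
`(1, p)`) `Lam p` is the Lorentz boost which sends `lf p • (1, p)` to `(1, 0)`.
-/

set_option autoImplicit false

open MeasureTheory

namespace Pool.Agent.Q188.FC

open Pool.Agent.W716.FV (E gam gd UU)
open Pool.Agent.H241R3.FV (Sph)

/-- The class of functions: homogeneous of degree one (also for negative factors), Lipschitz
constant one. -/
structure Cc {n : ℕ} (φ : E n → ℝ) : Prop where
  lip : ∀ x y, |φ x - φ y| ≤ ‖x - y‖
  hom : ∀ (t : ℝ) (x : E n), φ (t • x) = t * φ x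

/-- Lorentz factor `(1 - |p|²)^(-1/2)`. -/
noncomputable def lf {n : ℕ} (p : E n) : ℝ := (√(1 - ‖p‖ ^ 2))⁻¹

/-- The symmetric operator `N_p v = v + γ²/(1+γ) ⟨p, v⟩ p`, `γ = lf p`; `N_p p = γ p`,
`N_p² v = v + γ² ⟨p, v⟩ p`. -/
noncomputable def NN {n : ℕ} (p v : E n) : E n :=
  v + (lf p ^ 2 / (1 + lf p) * inner ℝ p v) • p

/-- `N_p` as a continuous linear map. -/
noncomputable def NNL {n : ℕ} (p : E n) : E n →L[ℝ] E n :=
  ContinuousLinearMap.id ℝ (E n) + (lf p ^ 2 / (1 + lf p)) • (innerSL ℝ p).smulRight p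

/-- The boost `(t, y) ↦ (γ (t - ⟨p, y⟩), N_p y - γ t p)`. -/
noncomputable def Lam {n : ℕ} (p : E n) (a : ℝ × E n) : ℝ × E n :=
  (lf p * (a.1 - inner ℝ p a.2), NN p a.2 - (lf p * a.1) • p)

/-- The inverse boost `(t, z) ↦ (γ (t + ⟨p, z⟩), N_p z + γ t p)`. -/
noncomputable def Lami {n : ℕ} (p : E n) (a : ℝ × E n) : ℝ × E n :=
  (lf p * (a.1 + inner ℝ p a.2), NN p a.2 + (lf p * a.1) • p)

/-- The square of the Euclidean norm of the space component of `Lam p (t, y)`. -/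
noncomputable def ww {n : ℕ} (p : E n) (t : ℝ) (y : E n) : ℝ :=
  ‖y‖ ^ 2 - t ^ 2 + lf p ^ 2 * (t - inner ℝ p y) ^ 2

/-- The kernel. -/
noncomputable def gk {n : ℕ} (p : E n) (t : ℝ) (y : E n) : E n :=
  ((√(2 * Real.pi))⁻¹ ^ n * (lf p)⁻¹ * Real.exp (-ww p t y / 2)) •
    (y - (lf p ^ 2 * (t - inner ℝ p y)) • p)

/-- The field whose zero is the centre of `φ`. -/
noncomputable def GG {n : ℕ} (p : E n) (φ : E n → ℝ) : E n :=
  (∫ y : E n, ∫ t in (0 : ℝ)..φ y, gk p t y) - p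

/-- The derivative of `⟨gk p t y, a'⟩` in the direction `a` with respect to `p`, as a function of
`c = Lam p (t, y)`. -/
noncomputable def dk {n : ℕ} (p a a' : E n) (c : ℝ × E n) : ℝ :=
  gd n c.2 * (c.1 * (inner ℝ (NN p a) c.2 * inner ℝ (NN p a') c.2 - inner ℝ (NN p a) (NN p a')) +
    lf p * (inner ℝ p a' * inner ℝ (NN p a) c.2 - inner ℝ p a * inner ℝ (NN p a') c.2))

/-- `ψ` is the function whose graph is the image of the graph of `φ` under the boost `Lam p`. -/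
def IsHat {n : ℕ} (p : E n) (φ ψ : E n → ℝ) : Prop :=
  ∀ (t : ℝ) (z : E n), t < ψ z ↔ (Lami p (t, z)).1 < φ (Lami p (t, z)).2

/-- `E[φ²]` -/
noncomputable def sv {n : ℕ} (φ : E n → ℝ) : ℝ := ∫ z, φ z ^ 2 ∂(gam n)

/-- `E[φ(z) z]` -/
noncomputable def mv {n : ℕ} (φ : E n → ℝ) : E n := ∫ z, φ z • z ∂(gam n)

/-- `X = E[(z zᵀ - 1) φ²] / 2` as a matrix -/
noncomputable def Xm {n : ℕ} (φ : E n → ℝ) : Matrix (Fin n) (Fin n) ℝ :=
  fun i j => 1 / 2 * ∫ z, (z i * z j - if i = j then 1 else 0) * φ z ^ 2 ∂(gam n)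

/-- `X` as a bilinear form -/
noncomputable def qX {n : ℕ} (φ : E n → ℝ) (u v : E n) : ℝ :=
  1 / 2 * ∫ z, (inner ℝ u z * inner ℝ v z - inner ℝ u v) * φ z ^ 2 ∂(gam n)

/-- `E[⟨u, z⟩ φ³] / 3` -/
noncomputable def bv {n : ℕ} (φ : E n → ℝ) (u : E n) : ℝ :=
  1 / 3 * ∫ z, inner ℝ u z * φ z ^ 3 ∂(gam n)

/-- square of the Hilbert-Schmidt norm of a matrix -/
noncomputable def hs {n : ℕ} (X : Matrix (Fin n) (Fin n) ℝ) : ℝ := ∑ i, ∑ j, X i j ^ 2

/-- the quadratic polynomial `⟨Q z, z⟩ - tr Q` -/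
noncomputable def qp {n : ℕ} (Q : Matrix (Fin n) (Fin n) ℝ) (z : E n) : ℝ :=
  ∑ i, ∑ j, Q i j * (z i * z j - if i = j then 1 else 0)

/-- locally Lipschitz functions, polynomial growth of the local Lipschitz constant -/
def PL {n : ℕ} (h : E n → ℝ) : Prop :=
  ∃ (C : ℝ) (m : ℕ), 0 ≤ C ∧ ∀ x y, |h x - h y| ≤ C * (1 + ‖x‖ + ‖y‖) ^ m * ‖x - y‖

/-- polynomially bounded functions -/
def PB {n : ℕ} (F : E n → ℝ) : Prop :=
  ∃ (C : ℝ) (m : ℕ), 0 ≤ C ∧ ∀ x, |F x| ≤ C * (1 + ‖x‖) ^ m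

/-- the correlation `E[F(x) F(ρ x + √(1-ρ²) y)]`, `x`, `y` independent standard Gaussian vectors -/
noncomputable def cor {n : ℕ} (F : E n → ℝ) (ρ : ℝ) : ℝ :=
  ∫ x, ∫ y, F x * F (ρ • x + √(1 - ρ ^ 2) • y) ∂(gam n) ∂(gam n)

/-- the function attached to a point of the filling -/
noncomputable def FF {n : ℕ} {M : Type} [MetricSpace M] (bd : Sph n → M) (q : M) (y : E n) : ℝ :=
  (UU bd q y - UU bd q (-y)) / 2

end Pool.Agent.Q188.FC
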