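import Pool.Agent.Q188.FC.Defs

/-!
# Statements, Gaussian part

`gam n` is the standard Gaussian measure on `E n`; `GaussMoments`, `GaussIBP`, `GoodFacts` of
`Pool.Agent.W716.FV` are proved (`gM`, `gI`, `gF` in `Pool.Agent.W716.FV.Final`) and may be used.
In the proofs `E[..]` is the expectation with respect to `gam n`, `∂_v f = fderiv ℝ f · v`.
-/

set_option autoImplicit false

open MeasureTheory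

namespace Pool.Agent.Q188.FC

open Pool.Agent.W716.FV (E gam gd UU)
open Pool.Agent.H241R3.FV (Sph act)

/-- [FC-PL] Facts on locally Lipschitz functions of polynomial growth.
Proof.  Continuity, growth, Lipschitz constants of sums and products: elementary.  Differentiability
almost everywhere: `h` is Lipschitz on every ball, so Rademacher's theorem applies (cover by the
balls of integer radius; `gam n` is absolutely continuous).  `‖fderiv h x‖ ≤ C (1 + 2‖x‖)^m` (the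
function is `(C (1+2‖x‖+2)^m)`-Lipschitz on the ball of radius `1` about `x`; any polynomial bound
will do).  Integration by parts: apply `GaussIBP` to `h_R(x) = h(x) χ(‖x‖/R)`, `χ` a Lipschitz
cut-off (`1` on `[0,1]`, `0` on `[2,∞)`), which is Lipschitz, and let `R → ∞` (dominated
convergence; the derivative of the cut-off is `≤ 1/R`, supported in `‖x‖ ≥ R`). -/
def PLBasic : Prop :=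
  ∀ n : ℕ,
    (∀ h : E n → ℝ, PL h → Continuous h ∧ PB h ∧ (∀ᵐ x ∂(gam n), DifferentiableAt ℝ h x) ∧
      (∀ᵐ x ∂(volume : Measure (E n)), DifferentiableAt ℝ h x) ∧
      PB (fun x => ‖fderiv ℝ h x‖) ∧ Measurable (fderiv ℝ h) ∧
      (∀ v : E n, ∫ x, h x * inner ℝ x v ∂(gam n) = ∫ x, fderiv ℝ h x v ∂(gam n))) ∧
    (∀ f g : E n → ℝ, PL f → PL g →
      PL (fun x => f x + g x) ∧ PL (fun x => f x - g x) ∧ PL (fun x => f x * g x)) ∧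
    (∀ f g : E n → ℝ, PB f → PB g → PB (fun x => f x + g x) ∧ PB (fun x => f x * g x)) ∧
    (∀ c : ℝ, PL (fun _ : E n => c)) ∧ (∀ u : E n, PL (fun x : E n => (inner ℝ u x : ℝ))) ∧
    (∀ f : E n → ℝ, Continuous f → PB f → Integrable f (gam n)) ∧
    (∀ f : E n → ℝ, Measurable f → PB f → Integrable f (gam n))

/-- [FC-NCS] The noise operator.
Proof.  `T_ρ F(x) = ∫ F(ρ x + √(1-ρ²) y) dγ(y)` for `0 ≤ ρ ≤ 1`.  For `ρ, σ ∈ [0,1]`: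
`∫ T_ρF · T_σF dγ = cor F (ρσ)`: the left side is `∭ F(ρx + ρ'y) F(σx + σ'y')`, `ρ' = √(1-ρ²)`,
and the pair `(ρx+ρ'y, σx+σ'y')` has the law of `(x, ρσ x + √(1-ρ²σ²) y)` (rotate: e.g. first replace
`(x, y)` by `(ρx - ρ'y, ρ'x + ρy)`, which preserves `γ ⊗ γ`; then `σρ' y` and `σ' y'` add up to a
Gaussian of variance `1-ρ²σ²`).  Rotations of pairs preserve `γ ⊗ γ` since the density of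
`γ ⊗ γ` is a function of `‖x‖²+‖y‖²`.  So `cor F ρ = ‖T_{√ρ} F‖² ≥ 0`, and
`cor F ρ = ∫ F · T_ρ F ≤ ‖F‖ ‖T_ρ F‖ = ‖F‖ (cor F (ρ²))^(1/2)` by Cauchy-Schwarz.
`cor F ρ ≤ ∫ F²`: `ab ≤ (a²+b²)/2` and the law of `ρx+ρ'y` is `γ`. -/
def NoiseCS : Prop :=
  ∀ (n : ℕ) (F : E n → ℝ), Measurable F → PB F → ∀ ρ : ℝ, 0 ≤ ρ → ρ ≤ 1 →
    0 ≤ cor F ρ ∧ cor F ρ ≤ ∫ x, F x ^ 2 ∂(gam n) ∧
    cor F ρ ^ 2 ≤ cor F (ρ ^ 2) * ∫ x, F x ^ 2 ∂(gam n)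

/-- [FC-NSM] The correlation for small `ρ`.
Proof.  For `0 ≤ ρ ≤ r` (small) and fixed `x` substitute `w = ρx + √(1-ρ²) y`: `cor F ρ =
∬ F(x) F(w) M_ρ(x,w) dγ(w) dγ(x)`,
`M_ρ(x,w) = (1-ρ²)^(-n/2) exp((2ρ⟨x,w⟩ - ρ²(‖x‖²+‖w‖²)) / (2(1-ρ²)))`.  As `∬ F(x)F(w) = 0` and, if
`F` is even, `M_ρ(x,w)` may be replaced by `(M_ρ(x,w) + M_ρ(-x,w))/2`, it suffices that
`|M_ρ - 1| ≤ K ρ exp((‖x‖²+‖w‖²)/8)` and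
`|(M_ρ(x,w)+M_ρ(-x,w))/2 - 1| ≤ K ρ² exp((‖x‖²+‖w‖²)/8)` for `0 ≤ ρ ≤ r`.  With
`A = (‖x‖²+‖w‖²)/(2(1-ρ²))`, `B = ⟨x,w⟩/(1-ρ²)`, `|B| ≤ A`: `M = c e^(-ρ²A) e^(ρB)`,
`0 ≤ c - 1 ≤ K ρ²`, `1 - e^(-ρ²A) ≤ ρ²A`, `|e^(ρB) - 1| ≤ ρ|B|e^(ρ|B|)`,
`cosh(ρB) - 1 ≤ ρ²B²e^(ρ|B|)`. -/
def NoiseSmall : Prop :=
  ∀ (n : ℕ) (F : E n → ℝ), Measurable F → PB F → ∫ x, F x ∂(gam n) = 0 →
    ∃ K r : ℝ, 0 < r ∧ ∀ ρ : ℝ, 0 ≤ ρ → ρ ≤ r →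
      cor F ρ ≤ K * ρ ∧ ((∀ x, F (-x) = F x) → cor F ρ ≤ K * ρ ^ 2)

/-- [FC-NC] Contraction of the correlation, from `NoiseCS` and `NoiseSmall`.
Proof.  Let `k = 1` or `k = 2`, `I = ∫F²`, `a(ρ) = cor F ρ / ρ^k` for `0 < ρ ≤ 1`.  It is
nonnegative and bounded (by `K` for `ρ ≤ r`, by `I/r^k` for `ρ ≥ r`); `A` its supremum.  By
`NoiseCS` `a(ρ)² ≤ a(ρ²) I ≤ A I`, so `A² ≤ A I` and `A ≤ I`.  For `ρ = 0` use `NoiseSmall`. -/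
def NoiseContr : Prop :=
  ∀ (n : ℕ) (F : E n → ℝ), Measurable F → PB F → ∫ x, F x ∂(gam n) = 0 →
    ∀ ρ : ℝ, 0 ≤ ρ → ρ ≤ 1 → cor F ρ ≤ ρ * ∫ x, F x ^ 2 ∂(gam n) ∧
      ((∀ x, F (-x) = F x) → cor F ρ ≤ ρ ^ 2 * ∫ x, F x ^ 2 ∂(gam n))

/-- [FC-CD] The variance as the integral of the correlation of the gradient (uses `PLBasic`).
Proof.  `C(ρ) = cor h ρ` is continuous on `[0,1]` (dominated convergence), `C(1) = ∫h²`,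
`C(0) = (∫h)²`.  Let `0 < ρ < 1`, `σ = √(1-ρ²)`.  For almost all `(x,y)` `h` is differentiable at
`ρx+σy` (its law is `γ`), so, differentiating under the integral
(`hasDerivAt_integral_of_dominated_loc_of_lip`; local Lipschitz bounds polynomial in `‖x‖, ‖y‖`),
`C'(ρ) = ∬ h(x) Dh(ρx+σy)(x - (ρ/σ)y)`.  Put `w = ρx+σy`, `v = σx-ρy`; `(x,y) ↦ (w,v)` preserves
`γ ⊗ γ` and is an involution, `x = ρw+σv`, `x-(ρ/σ)y = v/σ`.  So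
`C'(ρ) = σ⁻¹ ∬ h(ρw+σv) Dh(w)(v) dγ(v)dγ(w) = σ⁻¹ ∑_i ∫ ∂_i h(w) ∫ h(ρw+σv) v_i dγ(v) dγ(w)`, and
integration by parts for the function `v ↦ h(ρw+σv)` (it is `PL`, with derivative
`σ Dh(ρw+σv)`) gives `C'(ρ) = ∑_i cor (∂_i h) ρ`.  It is bounded by `E‖∇h‖²`, so integrable, and
the fundamental theorem of calculus (`integral_eq_sub_of_hasDerivAt_of_le`: continuity on `[0,1]`,
derivative inside) finishes. -/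
def CorDeriv : Prop :=
  ∀ (n : ℕ) (h : E n → ℝ), PL h →
    IntervalIntegrable
      (fun ρ => ∑ i, cor (fun x => fderiv ℝ h x (EuclideanSpace.single i 1)) ρ) volume 0 1 ∧
    (∫ x, h x ^ 2 ∂(gam n)) - (∫ x, h x ∂(gam n)) ^ 2 =
      ∫ ρ in (0 : ℝ)..1, ∑ i, cor (fun x => fderiv ℝ h x (EuclideanSpace.single i 1)) ρ

/-- [FC-SP] Spectral inequality for odd functions (from `PLBasic`, `NoiseContr`, `CorDeriv`).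
Proof.  `F_i = ∂_i h - c_i`, `c_i = E ∂_i h = E[z_i h]` (integration by parts), is even and centred,
`cor (∂_i h) ρ = c_i² + cor F_i ρ ≤ c_i² + ρ² (E(∂_i h)² - c_i²)`.  Integrate over `ρ ∈ [0,1]` and
sum over `i`; `∫ h = 0` and `∑_i (∂_i h)² = ‖fderiv h‖²`:
`E h² ≤ ∑ c_i² + (E‖∇h‖² - ∑ c_i²)/3`. -/
def SPOdd : Prop :=
  ∀ (n : ℕ) (h : E n → ℝ), PL h → (∀ x, h (-x) = -h x) →
    3 * (∫ x, h x ^ 2 ∂(gam n)) - 2 * ∑ i, (∫ x, x i * h x ∂(gam n)) ^ 2 ≤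
      ∫ x, ‖fderiv ℝ h x‖ ^ 2 ∂(gam n)

/-- [FC-SP] Spectral inequality for even functions (from `PLBasic`, `NoiseContr`, `CorDeriv`).
Proof.  `∂_i h` is odd, so centred, and `cor (∂_i h) ρ ≤ ρ E(∂_i h)²`; integrate. -/
def SPEven : Prop :=
  ∀ (n : ℕ) (h : E n → ℝ), PL h → (∀ x, h (-x) = h x) →
    2 * ((∫ x, h x ^ 2 ∂(gam n)) - (∫ x, h x ∂(gam n)) ^ 2) ≤
      ∫ x, ‖fderiv ℝ h x‖ ^ 2 ∂(gam n)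

/-- [FC-CB] Facts on the class `Cc` (uses `PLBasic`).
Proof.  `φ 0 = 0` by homogeneity.  `|φ x| = |φ x - φ 0| ≤ ‖x‖`; `t = -1` gives oddness; Lipschitz
functions have `‖fderiv‖ ≤ 1`; Euler: differentiate `t ↦ φ(t x) = t φ(x)` at `t = 1`.
`⟨mv φ, u⟩ = E[φ ⟨u,z⟩]`, Cauchy-Schwarz and `E⟨u,z⟩² = ‖u‖²`. -/
def CcBasic : Prop :=
  ∀ (n : ℕ) (φ : E n → ℝ), Cc φ →
    PL φ ∧ Continuous φ ∧ (∀ x, |φ x| ≤ ‖x‖) ∧ (∀ x, φ (-x) = -φ x) ∧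
    (∀ x, ‖fderiv ℝ φ x‖ ≤ 1) ∧
    (∀ x, DifferentiableAt ℝ φ x → fderiv ℝ φ x x = φ x) ∧
    (∀ u : E n, (inner ℝ (mv φ) u : ℝ) = ∫ z, φ z * inner ℝ u z ∂(gam n)) ∧
    (∀ u : E n, (inner ℝ (mv φ) u : ℝ) ^ 2 ≤ sv φ * ‖u‖ ^ 2) ∧ 0 ≤ sv φ

/-- [FC-CM] Moments of functions of class `Cc` (uses `PLBasic`, `CcBasic`).
Proof.  Integration by parts for `h = g(z) z_i` and `v = e_i`, summed over `i`, gives for a `PL`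
function `g`: `E[‖z‖² g] = n E[g] + E[Dg(z)(z)]`.  For `g = φ²` and `g = φ ⟨u,z⟩` Euler's identity
gives `Dg(z)(z) = 2 g(z)` almost everywhere.  So `E[‖z‖² g] = (n+2) E[g]`; the trace of `X` is
`E[(‖z‖²-n) φ²]/2 = E φ²`.  The other claims are linearity of the integral. -/
def CcMom : Prop :=
  ∀ (n : ℕ) (φ : E n → ℝ), Cc φ →
    (Xm φ).trace = sv φ ∧ (Xm φ).IsSymm ∧
    (∀ u v : E n, qX φ u v = ∑ i, ∑ j, u i * Xm φ i j * v j) ∧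
    (∀ u : E n, ∫ z, ‖z‖ ^ 2 * (φ z * inner ℝ u z) ∂(gam n) =
      (n + 2) * ∫ z, φ z * inner ℝ u z ∂(gam n))

/-- [FC-GM] Gaussian moments (uses `PLBasic`).
Proof.  All by integration by parts, `E[⟨u,z⟩ f] = E[∂_u f]`.  `∂_u (qp Q) = 2⟨Qu,z⟩` (`Q`
symmetric).  `E[⟨u,z⟩² ⟨v,z⟩⟨w,z⟩] = E[∂_u(⟨u,z⟩⟨v,z⟩⟨w,z⟩)]`.  `E[⟨u,z⟩⟨v,z⟩ q] =
⟨u,v⟩E q + 2E[⟨v,z⟩⟨Qu,z⟩]`.  `E q² = ∑ Q_ij E[z_i z_j q] - tr Q E q = 2 ∑ Q_ij²`.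
`E[⟨u,z⟩² q²] = ‖u‖² E q² + E[⟨u,z⟩ 2q 2⟨Qu,z⟩] = 2‖Q‖²‖u‖² + 8 ⟨Qu,Qu⟩`. -/
def GMom : Prop :=
  ∀ n : ℕ, (∀ u v w : E n, ∫ z, inner ℝ u z ^ 2 * (inner ℝ v z * inner ℝ w z) ∂(gam n) =
      ‖u‖ ^ 2 * inner ℝ v w + 2 * (inner ℝ u v * inner ℝ u w)) ∧
    ∀ Q : Matrix (Fin n) (Fin n) ℝ, Q.IsSymm → PL (qp Q) ∧ (∀ z, qp Q (-z) = qp Q z) ∧
      (∀ z : E n, HasFDerivAt (qp Q) ((2 : ℝ) • innerSL ℝ (act Q z)) z) ∧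
      ∫ z, qp Q z ∂(gam n) = 0 ∧ ∫ z, qp Q z ^ 2 ∂(gam n) = 2 * hs Q ∧
      (∀ u v : E n, ∫ z, inner ℝ u z * inner ℝ v z * qp Q z ∂(gam n) = 2 * inner ℝ (act Q u) v) ∧
      (∀ u : E n, ∫ z, inner ℝ u z ^ 2 * qp Q z ^ 2 ∂(gam n) =
        2 * hs Q * ‖u‖ ^ 2 + 8 * ‖act Q u‖ ^ 2)

/-- [FC-XU] Upper bound of `X` (from `PLBasic`, `CcBasic`, `SPOdd`, `SPEven`).
Proof.  `s = sv φ`, `μ = E[⟨u,z⟩φ] = ⟨mv φ, u⟩`, `μ² ≤ s‖u‖²`; also `∑_i (E z_i φ)² = ‖mv φ‖² ≤ s`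
(apply `⟨mv φ, u⟩² ≤ s‖u‖²` to `u = mv φ`).  `SPOdd` for `φ`: `3s - 2s ≤ E‖∇φ‖² ≤ 1`, so `s ≤ 1`.
`SPEven` for the even function `h = ⟨u,z⟩φ`: almost everywhere
`‖∇h‖² = ‖φ u + ⟨u,z⟩∇φ‖² ≤ φ²‖u‖² + 2φ⟨u,z⟩∂_uφ + ⟨u,z⟩²`, and
`E[⟨u,z⟩ ∂_u(φ²)] = E[(⟨u,z⟩²-‖u‖²)φ²] = 2 qX φ u u` (integration by parts for `⟨u,z⟩φ²`).
`E h² = 2 qX φ u u + ‖u‖² s`.  So `2(2qX + ‖u‖²s - μ²) ≤ s‖u‖² + 2qX + ‖u‖²`, that is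
`2 qX ≤ ‖u‖²(1-s) + 2μ²`; this is `≤ ‖u‖²(1+s) ≤ 2‖u‖²`, and `≤ ‖u‖²` if `mv φ = 0`. -/
def XUp : Prop :=
  ∀ (n : ℕ) (φ : E n → ℝ), Cc φ → sv φ ≤ 1 ∧ ∀ u : E n, qX φ u u ≤ ‖u‖ ^ 2 ∧
    (mv φ = 0 → qX φ u u ≤ ‖u‖ ^ 2 / 2)

/-- [FC-SA] (from `PLBasic`, `CcBasic`, `GMom`, `SPOdd`).
Proof.  `q = qp Q`, `h = (1+q)φ` is `PL` and odd.  Almost everywhere
`‖∇h‖² = (1+q)²‖∇φ‖² + 2(1+q)φ⟨∇φ,∇q⟩ + φ²‖∇q‖² ≤ (1+q)² + (1+q)⟨∇q,∇(φ²)⟩ + φ²‖∇q‖²`.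
Integration by parts for `h_i = (1+q)(∂_i q)φ²`, `v = e_i`, summed over `i`:
`E[(1+q)⟨z,∇q⟩φ²] = E[‖∇q‖²φ² + (1+q)(Δq)φ² + (1+q)⟨∇q,∇(φ²)⟩]`, `∇q = 2Qz`, `Δq = 2 tr Q`,
`⟨z,∇q⟩ - Δq = 2q`.  So `E‖∇h‖² ≤ E(1+q)² + 2E[(1+q)qφ²]`, and `SPOdd` gives
`3E[(1+q)²φ²] - 2∑_i(E[z_i(1+q)φ])² ≤ 1 + E q² + 2E[qφ²] + 2E[q²φ²]`; here `E[z_iφ] = 0`,
`E q² = 2 hs Q`, `E[qφ²] = 2∑ Q_ij X_ij`. -/
def SXa : Prop :=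
  ∀ (n : ℕ) (φ : E n → ℝ), Cc φ → mv φ = 0 → ∀ Q : Matrix (Fin n) (Fin n) ℝ, Q.IsSymm →
    3 * sv φ + 8 * (∑ i, ∑ j, Q i j * Xm φ i j) + ∫ z, (qp Q z * φ z) ^ 2 ∂(gam n) ≤
      1 + 2 * hs Q + 2 * ‖∫ z, (qp Q z * φ z) • z ∂(gam n)‖ ^ 2

/-- [FC-SB] (from `PLBasic`, `CcBasic`, `GMom`).
Proof.  `q = qp Q`, `P = E[qφ z]`, `s = sv φ`.  (1) For `v : E n`: as `E[⟨Qv,z⟩φ] = 0`,
`⟨P,v⟩ = E[(⟨v,z⟩q - 2⟨Qv,z⟩)φ]`, so by Cauchy-Schwarz and `GMom`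
`⟨P,v⟩² ≤ s(E[⟨v,z⟩²q²] - 4E[⟨v,z⟩⟨Qv,z⟩q] + 4‖Qv‖²) = s(2 hs Q ‖v‖² + 4‖Qv‖²) ≤ 6 s hs(Q) ‖v‖²`
(`‖Qv‖² ≤ hs Q ‖v‖²`); take `v = P`.
(2) `⟨P,z⟩` and `φ` are orthogonal: for real `α, β`
`0 ≤ E[(qφ - α⟨P,z⟩ - βφ)²] = E[q²φ²] - 2α‖P‖² - 2βE[qφ²] + α²‖P‖² + β²s`; `α = 1`,
`β s = E[qφ²] = 2∑Q_ij X_ij` if `s > 0` gives `s E[q²φ²] ≥ s‖P‖² + (E qφ²)²`; if `s = 0` then
`φ = 0` almost everywhere and both sides vanish. -/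
def SXb : Prop :=
  ∀ (n : ℕ) (φ : E n → ℝ), Cc φ → mv φ = 0 → ∀ Q : Matrix (Fin n) (Fin n) ℝ, Q.IsSymm →
    ‖∫ z, (qp Q z * φ z) • z ∂(gam n)‖ ^ 2 ≤ 6 * sv φ * hs Q ∧
    sv φ * ‖∫ z, (qp Q z * φ z) • z ∂(gam n)‖ ^ 2 + 4 * (∑ i, ∑ j, Q i j * Xm φ i j) ^ 2 ≤
      sv φ * ∫ z, (qp Q z * φ z) ^ 2 ∂(gam n)

/-- [FC-SC] Bounds for `s = sv φ` and `v = hs (Xm φ)` (from `CcMom`, `CcBasic`, `SXa`, `SXb`).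
Proof.  `t = ∑ Q_ij X_ij`.  Multiply `SXa` by `s ≥ 0` and insert `SXb`:
`4t² ≤ s(1 + (2+6s) hs Q - 3s - 8t)` for all symmetric `Q`.  `Q = 0`: `s(1-3s) ≥ 0`, so `s ≤ 1/3`.
`Q = cX`: `4c²v² ≤ s(1-3s) + s(2+6s)c²v - 8scv` for all real `c`, that is `A c² - 8sv c + s(1-3s) ≥ 0`
with `A = v(s(2+6s) - 4v)`.  If `v = 0` there is nothing to show.  If `v > 0` then `A ≥ 0` (let
`c → ∞`) and the discriminant condition `(8sv)² ≤ 4A s(1-3s)` gives, after division by `4 s v`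
(`s > 0`, else `A < 0`), `16sv ≤ (s(2+6s)-4v)(1-3s)`, that is `4v(1+s) ≤ 2s(1-9s²)`. -/
def SXc : Prop :=
  ∀ (n : ℕ) (φ : E n → ℝ), Cc φ → mv φ = 0 →
    sv φ ≤ 1 / 3 ∧ hs (Xm φ) ≤ sv φ * (1 - 9 * sv φ ^ 2) / (2 * (1 + sv φ))

/-- [FC-B] Bound for the cubic moment (from `PLBasic`, `CcBasic`, `CcMom`, `SPOdd`).
Proof.  `ℓ(z) = ⟨u,z⟩`, `b = bv φ u = E[ℓφ³]/3`, `s = sv φ`, `h = φ + εℓφ²` (odd, `PL`).  Almost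
everywhere `∇h = (1+2εℓφ)∇φ + εφ²u`, so
`‖∇h‖² ≤ (1+2εℓφ)² + 2εφ²(1+2εℓφ)∂_uφ + ε²φ⁴`.  `E[ℓφ] = 0`; integration by parts:
`E[φ²∂_uφ] = E[∂_u(φ³)]/3 = b`, `4E[ℓφ³∂_uφ] = E[ℓ∂_u(φ⁴)] = E[(ℓ²-1)φ⁴]`.  So
`E‖∇h‖² ≤ 1 + 4ε²E[ℓ²φ²] + 2εb + ε²E[ℓ²φ⁴]`.
`E h² = s + 2εE[ℓφ³] + ε²E[ℓ²φ⁴] = s + 6εb + ε²E[ℓ²φ⁴]`,
`E[z_i h] = εE[z_iℓφ²] = ε((2X+s)u)_i`, `E[ℓ²φ²] = s + 2x`, `x = ⟨Xu,u⟩`.  `SPOdd` gives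
`3s + 16εb + 2ε²E[ℓ²φ⁴] ≤ 1 + 4ε²(s+2x) + 2ε²‖(2X+s)u‖²`.  By Cauchy-Schwarz
`E[ℓ²φ⁴] ≥ (E[ℓ²φ²])² = (s+2x)²`, and `‖(2X+s)u‖² - (s+2x)² = 4(‖Xu‖²-x²)`, which is at most
`2 hs X` (in an orthonormal basis beginning with `u`: `hs X ≥ x² + 2(‖Xu‖²-x²)`; without bases:
with `w = Xu - xu ⊥ u`, `hs(X) ≥ hs(xuuᵀ + uwᵀ + wuᵀ) = x² + 2‖w‖²` since
`⟨X, xuuᵀ + uwᵀ + wuᵀ⟩ = x² + 2‖w‖²` and Cauchy-Schwarz).  Finally `x ≤ √(hs X)`. -/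
def BIneq : Prop :=
  ∀ (n : ℕ) (φ : E n → ℝ), Cc φ → mv φ = 0 → ∀ u : E n, ‖u‖ = 1 → ∀ ε : ℝ,
    3 * sv φ + 16 * ε * bv φ u ≤
      1 + ε ^ 2 * (4 * (sv φ + 2 * √(hs (Xm φ))) + 4 * hs (Xm φ))

/-- [FC-NF] Numerical inequality.
Proof.  `v ≤ 0.05405 ≤ 36/625`.  With `ε = ±3/10`: `|b| ≤ (1 - 3s + 9K/100)/(24/5)`,
`K = 4s + 8√v + 4v`; `8√v ≤ 4(v/c + c)`, `c = 0.232`; insert `v ≤ s(1-9s²)/(2(1+s))`; the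
supremum over `s ∈ [0,1/3]` of the resulting function is `0.2042 < 0.2107 = log(100/81)`. -/
def NumFin : Prop :=
  ∀ s v b : ℝ, 0 ≤ s → s ≤ 1 / 3 → 0 ≤ v → v ≤ s * (1 - 9 * s ^ 2) / (2 * (1 + s)) →
    (∀ ε : ℝ, 3 * s + 16 * ε * b ≤ 1 + ε ^ 2 * (4 * (s + 2 * √v) + 4 * v)) →
    v ≤ 36 / 625 ∧ s / 2 + |b| / 2 + 3 / 5 * v ≤ Real.log (100 / 81)

/-- [FC-DL] Lower bound for a determinant.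
Proof.  Eigenvalues `λ_i` of `X`: `∑λ_i = tr X`, `∑λ_i² = hs X ≤ (6/25)²`, so `|λ_i| ≤ 6/25` and
`log(1-t) ≥ -t - (3/5)t²` for `|t| ≤ 6/25`.  `det(1-X) = ∏(1-λ_i)`. -/
def DetLog : Prop :=
  ∀ (n : ℕ) (X : Matrix (Fin n) (Fin n) ℝ), X.IsSymm → hs X ≤ 36 / 625 →
    Real.exp (-(X.trace + 3 / 5 * hs X)) ≤ (1 - X).det

/-- [FC-GF] The Gaussian inequality (from `CcBasic`, `CcMom`, `SXc`, `BIneq`, `NumFin`, `DetLog`).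
Proof.  `s = sv φ = tr X`, `v = hs X`.  If `p ≠ 0` let `u = p/‖p‖`, `b = bv φ u`,
`bv φ p = ‖p‖ b`, so `|bv φ p| ≤ |b|`; if `p = 0` let `b = 0 = bv φ p`.  `NumFin` gives
`v ≤ 36/625` and `s/2 + |b|/2 + 3v/5 ≤ log(100/81)`, and `DetLog`
`det(1-X) ≥ exp(-s - 3v/5) ≥ exp(-s/2 + |b|/2) 81/100`. -/
def GaussFinal : Prop :=
  ∀ (n : ℕ) (φ : E n → ℝ), Cc φ → mv φ = 0 → ∀ p : E n, ‖p‖ ≤ 1 →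
    Real.exp (-(sv φ + bv φ p) / 2) ≤ 100 / 81 * (1 - Xm φ).det

end Pool.Agent.Q188.FC
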