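import Pool.Agent.Q188.FC.StmG

/-!
# Statements, kernel part

Notation in the proofs: `γ = lf p`, `c = (t̂, z) = Lam p (t, y)`, `b = NN p a`, `b' = NN p a'`,
`β = ⟨p, a⟩`, `β' = ⟨p, a'⟩`, `ψ` the hat of `φ` at `p` (`IsHat p φ ψ`).
`gam n` has density `gd n`, so `∫ f dγ = ∫ gd n z * f z dz`.
-/

set_option autoImplicit false

open MeasureTheory Metric

namespace Pool.Agent.Q188.FC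

open Pool.Agent.W716.FV (E gam gd UU)
open Pool.Agent.H241R3.FV (Sph act)

/-- the inverse of `NN p` -/
noncomputable def NI {n : ℕ} (p v : E n) : E n :=
  v - (lf p / (1 + lf p) * inner ℝ p v) • p

/-- [FC-BA] Algebra of the boost.
Proof.  `γ²(1-‖p‖²) = 1`.  `N_p p = p + γ²‖p‖²/(1+γ) p = p + (γ²-1)/(1+γ) p = γ p`.
`⟨N v, N w⟩ = ⟨v, N² w⟩`, `N² w = w + γ²⟨p,w⟩p`.  `det N = 1 + γ²‖p‖²/(1+γ) = γ` (matrix determinant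
lemma).  The composites `Lam ∘ Lami`, `Lami ∘ Lam` and the invariance of `‖y‖²-t²` are direct
computations.  Measure preserving: `Lam p` is linear; with `J(t,y) = (t,-y)` one has
`Lam p ∘ J = J ∘ Lami p`, so `det (Lam p) = det (Lami p) = 1/det (Lam p)` and `|det (Lam p)| = 1`
(`Real.map_linearMap_volume_pi_eq_smul_volume_pi`-type lemmas, or
`Measure.addHaar_image_linearMap` / `map_linearMap_addHaar_eq_smul_addHaar`).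
`ww p t y = ‖z‖²`: `z = Ny - γtp`, or from `‖z‖² = t̂² + ‖y‖² - t²`.
`N_p z = N²y - γ² t p = y - γ²(t-⟨p,y⟩)p` gives the formula for `gk`. -/
def BoostAlg : Prop :=
  ∀ (n : ℕ) (p : E n), ‖p‖ < 1 →
    1 ≤ lf p ∧ lf p ^ 2 * (1 - ‖p‖ ^ 2) = 1 ∧ NN p p = lf p • p ∧
    (∀ v, NNL p v = NN p v) ∧ (NNL p).det = lf p ∧
    (∀ v w : E n, (inner ℝ (NN p v) (NN p w) : ℝ) =
      inner ℝ v w + lf p ^ 2 * (inner ℝ p v * inner ℝ p w)) ∧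
    (∀ v w : E n, (inner ℝ (NN p v) w : ℝ) = inner ℝ v (NN p w)) ∧
    (∀ v : E n, (inner ℝ p (NN p v) : ℝ) = lf p * inner ℝ p v) ∧
    (∀ v, NI p (NN p v) = v) ∧ (∀ v, NN p (NI p v) = v) ∧
    (∀ a, Lam p (Lami p a) = a) ∧ (∀ a, Lami p (Lam p a) = a) ∧
    (∀ a, ‖(Lam p a).2‖ ^ 2 - (Lam p a).1 ^ 2 = ‖a.2‖ ^ 2 - a.1 ^ 2) ∧
    Continuous (Lam p) ∧ MeasurePreserving (Lam p) (volume : Measure (ℝ × E n)) volume ∧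
    (∀ t y, ww p t y = ‖(Lam p (t, y)).2‖ ^ 2) ∧
    (∀ t y, gk p t y = (lf p)⁻¹ • NN p (gd n (Lam p (t, y)).2 • (Lam p (t, y)).2))

/-- [FC-HE] Existence of the hat (uses `BoostAlg`).
Proof.  Fix `z` and let `h(t) = γ(t+⟨p,z⟩) - φ(N_p z + γtp)`.  As `φ` is `1`-Lipschitz,
`h(t') - h(t) ≥ γ(1-‖p‖)(t'-t)` for `t < t'`, and `h` is continuous: it has exactly one zero, which
is `ψ(z)`, and `t < ψ(z) ↔ h(t) < 0`.  Homogeneity of `ψ`: `h_{λz}(λt) = λ h_z(t)` for all real `λ`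
(homogeneity of `φ`), so the zeros are multiplied by `λ`.  Lipschitz: let `a = (ψ(z), z)`,
`a' = (ψ(z'), z')`, `Lami p a = (t,y)`, `Lami p a' = (t',y')`; `t = φ(y)`, `t' = φ(y')`, so
`0 ≤ ‖y-y'‖²-(t-t')² = ‖z-z'‖²-(ψ(z)-ψ(z'))²` (`Lami p` is linear and preserves the form). -/
def HatEx : Prop :=
  ∀ (n : ℕ) (p : E n), ‖p‖ < 1 → ∀ φ : E n → ℝ, Cc φ → ∃ ψ : E n → ℝ, Cc ψ ∧ IsHat p φ ψ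

/-- [FC-HL] Hats of linear functions (uses `BoostAlg`).
Proof.  Both are linear: `γ(t+⟨p,z⟩) < ⟨N_pz+γtp, x⟩ = ⟨z,N_px⟩ + γt⟨p,x⟩` means
`γt(1-⟨p,x⟩) < ⟨z, N_px-γp⟩ = ⟨z, N_p(x-p)⟩`.  The vector has norm one if `‖x‖ = 1`:
`‖N_p(x-p)‖² = ‖x-p‖²+γ²⟨p,x-p⟩²` and `γ²(1-⟨p,x⟩)²` agree.  For `x = 0` the hat is `-⟨p,z⟩`; for
`x = p` it is `0`. -/
def HatLin : Prop :=
  ∀ (n : ℕ) (p : E n), ‖p‖ < 1 →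
    (∀ x : E n, ‖x‖ ≤ 1 → Cc (fun y : E n => (inner ℝ y x : ℝ)) ∧
      IsHat p (fun y => inner ℝ y x)
        (fun z => inner ℝ z ((lf p * (1 - inner ℝ p x))⁻¹ • NN p (x - p)))) ∧
    IsHat p (fun _ => 0) (fun z => -inner ℝ p z) ∧ IsHat p (fun y => inner ℝ p y) (fun _ => 0) ∧
    Cc (fun _ : E n => (0 : ℝ)) ∧ Cc (fun z : E n => -(inner ℝ p z : ℝ)) ∧
    Cc (fun z : E n => (inner ℝ p z : ℝ)) ∧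
    ∀ x : E n, ‖x‖ = 1 → ‖(lf p * (1 - inner ℝ p x))⁻¹ • NN p (x - p)‖ = 1

/-- [FC-TL] Change of variables by the boost (uses `BoostAlg`).
Proof.  On `ℝ × E n` let `g(t,z) = (1[t<ψ₂ z] - 1[t<ψ₁ z]) k(t,z)`.  It vanishes unless `t` lies
between `ψ₁ z` and `ψ₂ z`, so `|t| ≤ ‖z‖` and `‖g‖ ≤ C(1+‖z‖)^m gd(z) 1[|t|≤‖z‖]`; it is
measurable, so integrable (Tonelli: `∫ 2‖z‖ C (1+‖z‖)^m gd(z) dz < ∞`), and `∫ g(t,z) dt =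
∫ t in ψ₁ z..ψ₂ z, k(t,z)`.  By `IsHat` with `a = Lam p (t,y)` (`Lami p a = (t,y)`),
`g(Lam p (t,y)) = (1[t<φ₂ y] - 1[t<φ₁ y]) k(Lam p (t,y))`.  `Lam p` preserves the measure: the
integrals of `g` and `g ∘ Lam p` over `ℝ × E n` agree; use Fubini on both sides. -/
def TLs : Prop :=
  ∀ (n : ℕ) (p : E n), ‖p‖ < 1 → ∀ φ₁ φ₂ ψ₁ ψ₂ : E n → ℝ, Cc φ₁ → Cc φ₂ → Cc ψ₁ → Cc ψ₂ →
    IsHat p φ₁ ψ₁ → IsHat p φ₂ ψ₂ →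
    ∀ (W : Type) [NormedAddCommGroup W] [NormedSpace ℝ W] [CompleteSpace W] (k : ℝ × E n → W)
      (C : ℝ) (m : ℕ), Continuous k →
    (∀ (t : ℝ) (z : E n), |t| ≤ ‖z‖ → ‖k (t, z)‖ ≤ C * (1 + ‖z‖) ^ m * gd n z) →
    Integrable (fun y => ∫ t in φ₁ y..φ₂ y, k (Lam p (t, y))) ∧
    Integrable (fun z => ∫ t in ψ₁ z..ψ₂ z, k (t, z)) ∧
    ∫ y, ∫ t in φ₁ y..φ₂ y, k (Lam p (t, y)) = ∫ z, ∫ t in ψ₁ z..ψ₂ z, k (t, z)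

/-- [FC-KB] Bounds for the kernel (uses `BoostAlg`).
Proof.  Let `Γ = (1-ρ²)^(-1/2)` (if `ρ < 0` there is no `p`), `γ ≤ Γ`.  `‖z‖²-t̂² = ‖y‖²-t² ≥ 0`.
`‖z‖ ≤ ‖N_p y‖+γ|t| ≤ 2Γ‖y‖`.  `y = N_pz+γt̂p` and `|t̂| ≤ ‖z‖` give `‖y‖ ≤ 2Γ‖z‖`.
`‖gk‖ ≤ ‖z‖ gd(z)` as `‖N_p v‖ ≤ γ‖v‖`; `|dk| ≤ gd(z)(2‖z‖·‖b‖‖b'‖(1+‖z‖²) + 2Γ‖b‖‖b'‖‖z‖)`-like
bounds, `‖b‖ ≤ Γ‖a‖`; polynomial times `exp(-‖z‖²/2)` is at most constant times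
`exp(-‖z‖²/4) ≤ exp(-‖y‖²/(16Γ²))`. -/
def KerBound : Prop :=
  ∀ (n : ℕ) (ρ : ℝ), ρ < 1 → ∃ c C : ℝ, 0 < c ∧ 0 < C ∧ ∀ p : E n, ‖p‖ ≤ ρ →
    ∀ (t : ℝ) (y : E n), |t| ≤ ‖y‖ →
      |(Lam p (t, y)).1| ≤ ‖(Lam p (t, y)).2‖ ∧
      c * ‖y‖ ≤ ‖(Lam p (t, y)).2‖ ∧ ‖(Lam p (t, y)).2‖ ≤ C * ‖y‖ ∧
      ‖gk p t y‖ ≤ C * Real.exp (-(c * ‖y‖ ^ 2)) ∧
      (∀ a a' : E n, |dk p a a' (Lam p (t, y))| ≤ C * Real.exp (-(c * ‖y‖ ^ 2)) * ‖a‖ * ‖a'‖)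

/-- [FC-KD] Derivative of the kernel with respect to `p` (uses `BoostAlg`).
Proof.  Smoothness: `1-‖p‖² > 0` on the set.  Derivatives in the direction `a`:
`∂_a γ = γ³β`; `u = γ²(t-⟨p,y⟩) = γt̂`; `y-up = N_pz`, so `⟨y-up,a'⟩ = ⟨z,b'⟩` and
`⟨a,y⟩ = ⟨b,z⟩+γt̂β`; `∂_a u = 2γ⁴β(t-⟨p,y⟩) - γ²⟨a,y⟩ = γ³βt̂ - γ²⟨b,z⟩`;
`∂_a ww = 2γ⁴β(t-⟨p,y⟩)² - 2γ²(t-⟨p,y⟩)⟨a,y⟩ = -2γt̂⟨b,z⟩`.  As `gk = κγ⁻¹e^{-ww/2}(y-up)`,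
`⟨∂_a gk, a'⟩ = κγ⁻¹e^{-ww/2}{(-γ²β+γt̂⟨b,z⟩)⟨z,b'⟩ - (γ³βt̂-γ²⟨b,z⟩)β' - γt̂⟨a,a'⟩} =
κe^{-ww/2}{t̂(⟨b,z⟩⟨b',z⟩ - ⟨a,a'⟩-γ²ββ') + γ(β'⟨b,z⟩-β⟨b',z⟩)}`, and
`⟨b,b'⟩ = ⟨a,a'⟩+γ²ββ'`, `ww = ‖z‖²`, `κe^{-‖z‖²/2} = gd n z`. -/
def KerDeriv : Prop :=
  ∀ n : ℕ,
    ContDiffOn ℝ 2 (fun q : E n × ℝ × E n => gk q.1 q.2.1 q.2.2) {q | ‖q.1‖ < 1} ∧
    ∀ p : E n, ‖p‖ < 1 → ∀ (t : ℝ) (y a a' : E n),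
      (inner ℝ (fderiv ℝ (fun p' => gk p' t y) p a) a' : ℝ) = dk p a a' (Lam p (t, y))

/-- [FC-GH] The field in terms of the hat (uses `BoostAlg`, `TLs`, `HatLin`, `CcBasic`,
`GaussMoments`).
Proof.  `gk p t y = k(Lam p (t,y))`, `k(t,z) = γ⁻¹ N_p(gd(z) z)`.  `TLs` with `φ₁ = 0` (hat
`-⟨p,·⟩`), `φ₂ = φ`: `GG p φ + p = ∫ (ψ(z)+⟨p,z⟩) γ⁻¹N_p(gd(z)z) dz = γ⁻¹N_p(mv ψ) + γ⁻¹N_p p`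
(second moments of `γ`), and `γ⁻¹N_p p = p`. -/
def GGHat : Prop :=
  ∀ (n : ℕ) (p : E n), ‖p‖ < 1 → ∀ φ ψ : E n → ℝ, Cc φ → Cc ψ → IsHat p φ ψ →
    GG p φ = (lf p)⁻¹ • NN p (mv ψ) ∧ (GG p φ = 0 ↔ mv ψ = 0) ∧
    Integrable (fun y => ∫ t in (0 : ℝ)..φ y, gk p t y)

/-- [FC-GD] Derivative of the field with respect to `p` (uses `BoostAlg`, `KerBound`, `KerDeriv`).
Proof.  Differentiation under the integral sign, twice (first for the inner integral over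
`[0, φ(y)]`, `|φ(y)| ≤ ‖y‖`, then for the outer one; the bound is
`‖y‖ C exp(-c‖y‖²)` for `p'` in a ball about `p` of radius `(1-‖p‖)/2`), and the formula of
`KerDeriv`. -/
def GGDer : Prop :=
  ∀ (n : ℕ) (φ : E n → ℝ), Cc φ → ∀ p : E n, ‖p‖ < 1 →
    ∃ L : E n →L[ℝ] E n, HasFDerivAt (fun p' => GG p' φ) L p ∧
      ∀ a a' : E n, (inner ℝ (L a) a' : ℝ) =
        (∫ y : E n, ∫ t in (0 : ℝ)..φ y, dk p a a' (Lam p (t, y))) - inner ℝ a a'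

/-- [FC-GO] The formula for the derivative (uses `BoostAlg`, `TLs`, `HatLin`, `CcBasic`, `GMom`,
`GaussMoments`).
Proof.  `TLs` with `φ₁ = 0` (hat `-⟨p,·⟩`) and `φ₂ = φ`, `k(t,z) = gd(z)(tA(z)+B(z))`,
`A = ⟨b,z⟩⟨b',z⟩-⟨b,b'⟩`, `B = γ(β'⟨b,z⟩-β⟨b',z⟩)`:
`∬ = E[(ψ²-⟨p,z⟩²)A/2 + (ψ+⟨p,z⟩)B]`.  `E[ψ²A]/2 = qX ψ b b'`;
`E[ψB] = γ(β'⟨b,mv ψ⟩-β⟨b',mv ψ⟩)`; `E[⟨p,z⟩²A] = 2⟨p,b⟩⟨p,b'⟩ = 2γ²ββ'`;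
`E[⟨p,z⟩B] = γ(β'γβ-βγβ') = 0`.  Finally `⟨a,a'⟩+γ²ββ' = ⟨b,b'⟩`. -/
def GGForm : Prop :=
  ∀ (n : ℕ) (p : E n), ‖p‖ < 1 → ∀ φ ψ : E n → ℝ, Cc φ → Cc ψ → IsHat p φ ψ →
    ∀ a a' : E n,
      (∫ y : E n, ∫ t in (0 : ℝ)..φ y, dk p a a' (Lam p (t, y))) - inner ℝ a a' =
        -inner ℝ (NN p a) (NN p a') + qX ψ (NN p a) (NN p a') +
          lf p * (inner ℝ p a' * inner ℝ (NN p a) (mv ψ) -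
            inner ℝ p a * inner ℝ (NN p a') (mv ψ))

/-- [FC-GS] Uniform differentiability with respect to `p` (uses `BoostAlg`, `KerBound`, `KerDeriv`,
`GGDer`).
Proof.  For `φ` with `|φ y-φ₀ y| ≤ δ‖y‖` and `p` near `p₀` the derivative `L_{p,φ}` of `GG · φ` at
`p` satisfies (by the formula of `GGDer`, for basis vectors `a`, `a'`)
`|⟨(L_{p,φ}-L)a,a'⟩| ≤ ∫|∫_{φ₀ y}^{φ y} dk p a a'(Lam p (t,y)) dt| dy +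
∫|∫_0^{φ₀ y} (dk p a a' (Lam p (t,y)) - dk p₀ a a' (Lam p₀ (t,y))) dt| dy`; the first term is
`≤ δ ∫ ‖y‖ C exp(-c‖y‖²)`, the second tends to `0` as `p → p₀` (dominated convergence; it does not
depend on `φ`).  So `‖L_{p,φ}-L‖ ≤ ε` if `δ` is small, and the mean value inequality on the convex
ball (`Convex.norm_image_sub_le_of_norm_hasFDerivWithin_le'`) gives the claim. -/
def GGStrict : Prop :=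
  ∀ (n : ℕ) (φ₀ : E n → ℝ), Cc φ₀ → ∀ p₀ : E n, ‖p₀‖ < 1 → ∀ L : E n →L[ℝ] E n,
    HasFDerivAt (fun p' => GG p' φ₀) L p₀ → ∀ ε : ℝ, 0 < ε →
    ∃ δ : ℝ, 0 < δ ∧ ball p₀ δ ⊆ ball 0 1 ∧ ∀ φ : E n → ℝ, Cc φ →
      (∀ y, |φ y - φ₀ y| ≤ δ * ‖y‖) → ∀ p ∈ ball p₀ δ, ∀ p' ∈ ball p₀ δ,
        ‖GG p φ - GG p' φ - L (p - p')‖ ≤ ε * ‖p - p'‖

/-- [FC-GL] Lipschitz dependence on the function (uses `KerBound`).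
Proof.  `‖∫_{φ' y}^{φ y} gk p t y dt‖ ≤ δ‖y‖ C exp(-c‖y‖²)`; integrate over `y`. -/
def GGLip : Prop :=
  ∀ (n : ℕ) (ρ : ℝ), ρ < 1 → ∃ K : ℝ, 0 ≤ K ∧ ∀ p : E n, ‖p‖ ≤ ρ → ∀ φ φ' : E n → ℝ,
    Cc φ → Cc φ' → ∀ δ : ℝ, 0 ≤ δ → (∀ y, |φ y - φ' y| ≤ δ * ‖y‖) →
      ‖GG p φ - GG p φ'‖ ≤ K * δ

/-- [FC-GC] Differentiation with respect to a parameter of the function (uses `KerBound`,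
`KerDeriv` for continuity of `gk`).
Proof.  `hasFDerivAt_integral_of_dominated_loc_of_lip'` for `F(c,y) = ∫_0^{φ_c y} gk p t y dt`:
`‖F(c,y)-F(c₀,y)‖ ≤ K‖y‖ C exp(-c'‖y‖²) ‖c-c₀‖`; for almost every `y` the chain rule gives the
derivative `v ↦ (D y v) • gk p (φ_{c₀} y) y`. -/
def GGChart : Prop :=
  ∀ (n : ℕ) (p : E n), ‖p‖ < 1 → ∀ φ : E n → E n → ℝ, (∀ c, Cc (φ c)) →
    ∀ (c₀ : E n) (r K : ℝ), 0 < r →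
      (∀ c ∈ ball c₀ r, ∀ y, |φ c y - φ c₀ y| ≤ K * ‖c - c₀‖ * ‖y‖) →
    ∀ D : E n → E n →L[ℝ] ℝ, Measurable D →
      (∀ᵐ y ∂(volume : Measure (E n)), HasFDerivAt (fun c => φ c y) (D y) c₀) →
    ∃ T : E n →L[ℝ] E n, HasFDerivAt (fun c => GG p (φ c)) T c₀ ∧
      ∀ v, T v = ∫ y, (D y v) • gk p (φ c₀ y) y

/-- [FC-GI] Integrals over the graph (uses `BoostAlg`, `TLs`, `HatLin`, `CcBasic`, `CcMom`,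
`GaussMoments`).
Proof.  Let `K(t,z)` be `‖z‖² gd(z)` or `t² gd(z)`, `Γ(y) = Lam p (φ y, y)`.  By the fundamental
theorem of calculus in `t` (`d/dt K(Lam p (t,y)) = k(Lam p (t,y))`,
`k = γ ∂_t K - γ ∂_{z,p} K`, since `Lam p (t,y)` moves with velocity `(γ, -γp)`):
`K(Γ(y)) = K(Lam p (⟨p,y⟩,y)) + ∫_{⟨p,y⟩}^{φ y} k(Lam p (t,y)) dt`.  Integrate over `y`, `TLs` with
`φ₁ = ⟨p,·⟩` (hat `0`), `φ₂ = φ`: the last term becomes `∫ ∫_0^{ψ z} k(t,z) dt dz`.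
(1) `K = ‖z‖² gd`: `k = -γ(2-‖z‖²)⟨p,z⟩ gd(z)`, so the last term is
`-γE[ψ(2-‖z‖²)⟨p,z⟩] = nγ⟨p,mv ψ⟩` by `E[‖z‖²ψ⟨p,z⟩] = (n+2)E[ψ⟨p,z⟩]`; the first term is
`∫ ‖Ay‖² gd(Ay) dy = n/det A = nγ` with `Ay = N_py-γ⟨p,y⟩p`, `det A = γ⁻¹` (rank one perturbation of
the identity, `Ap = γ⁻¹p`).
(2) `K = t² gd`: the first term vanishes (`t̂ = 0`), `k = γ(2t+t²⟨p,z⟩)gd(z)`, so the last term is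
`γE[ψ²+ψ³⟨p,z⟩/3]`.  Integrability from `KerBound`-type bounds: `|t̂| ≤ ‖z‖`, `c‖y‖ ≤ ‖z‖ ≤ C‖y‖`
on the graph. -/
def GraphInt : Prop :=
  ∀ (n : ℕ) (p : E n), ‖p‖ < 1 → ∀ φ ψ : E n → ℝ, Cc φ → Cc ψ → IsHat p φ ψ →
    Integrable (fun y => ‖(Lam p (φ y, y)).2‖ ^ 2 * gd n (Lam p (φ y, y)).2) ∧
    Integrable (fun y => (Lam p (φ y, y)).1 ^ 2 * gd n (Lam p (φ y, y)).2) ∧
    ∫ y, ‖(Lam p (φ y, y)).2‖ ^ 2 * gd n (Lam p (φ y, y)).2 =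
      n * lf p * (1 + inner ℝ p (mv ψ)) ∧
    ∫ y, (Lam p (φ y, y)).1 ^ 2 * gd n (Lam p (φ y, y)).2 = lf p * (sv ψ + bv ψ p)

/-- [FC-MO] Monotonicity (from `BoostAlg`, `HatEx`, `GGDer`, `GGForm`, `GGHat`, `XUp`).
Proof.  Let `ψ` be the hat.  `⟨La,a⟩ = -‖b‖²+qX ψ b b` (`a' = a`) is `≤ 0` by `XUp`, and
`≤ -‖b‖²/2 ≤ -‖a‖²/2` if `mv ψ = 0`, since `‖b‖² = ‖a‖²+γ²β²`. -/
def MonoF : Prop :=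
  ∀ (n : ℕ) (φ : E n → ℝ), Cc φ → ∀ p : E n, ‖p‖ < 1 → ∀ L : E n →L[ℝ] E n,
    HasFDerivAt (fun p' => GG p' φ) L p →
      (∀ a, inner ℝ (L a) a ≤ 0) ∧ (GG p φ = 0 → ∀ a, inner ℝ (L a) a ≤ -(‖a‖ ^ 2 / 2))

/-- [FC-LZ] Local Lipschitz dependence of the zero, uniqueness (from `GGDer`, `GGStrict`, `GGLip`,
`MonoF`).
Proof.  `L` the derivative at `p₀`, `⟨La,a⟩ ≤ -‖a‖²/2`.  `GGStrict` with `ε = 1/4` gives `δ₀ > 0`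
with `⟨GG p φ-GG p' φ,p-p'⟩ ≤ -‖p-p'‖²/4` for `p, p' ∈ ball p₀ δ₀` and `φ` `δ₀`-close to `φ₀`.
Let `K` be the constant of `GGLip` for `ρ = ‖p₀‖+δ₀/2 < 1` (decrease `δ₀`), and `r ≤ δ₀` with
`K r < δ₀/16`.
(1) If `φ` is `r`-close to `φ₀`, `‖p‖ < 1`, `GG p φ = 0`, then `‖p-p₀‖ < δ₀/2`: otherwise let
`q = p₀+λ(p-p₀)`, `0 < λ ≤ 1`, `‖q-p₀‖ = δ₀/2` (or `δ₀/3`).  By `MonoF` the function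
`s ↦ ⟨GG(p₀+s(p-p₀)) φ, p-p₀⟩` is antitone on `[0,1]`, so `⟨GG q φ,p-p₀⟩ ≥ 0`; but
`⟨GG q φ,q-p₀⟩ = ⟨GG q φ-GG q φ₀,q-p₀⟩ + ⟨GG q φ₀-GG p₀ φ₀,q-p₀⟩ ≤ K r‖q-p₀‖ - ‖q-p₀‖²/4 < 0`.
(2) For two such pairs: `0 = ⟨GG p φ-GG p' φ,p-p'⟩ + ⟨GG p' φ-GG p' φ',p-p'⟩ ≤
-‖p-p'‖²/4 + Kδ‖p-p'‖`, so `‖p-p'‖ ≤ 4Kδ`. -/
def LocZ : Prop :=
  ∀ (n : ℕ) (φ₀ : E n → ℝ), Cc φ₀ → ∀ p₀ : E n, ‖p₀‖ < 1 → GG p₀ φ₀ = 0 →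
    ∃ r K : ℝ, 0 < r ∧ 0 ≤ K ∧ ∀ φ φ' : E n → ℝ, Cc φ → Cc φ' →
      (∀ y, |φ y - φ₀ y| ≤ r * ‖y‖) → (∀ y, |φ' y - φ₀ y| ≤ r * ‖y‖) →
      ∀ p p' : E n, ‖p‖ < 1 → ‖p'‖ < 1 → GG p φ = 0 → GG p' φ' = 0 →
      ∀ δ : ℝ, 0 ≤ δ → (∀ y, |φ y - φ' y| ≤ δ * ‖y‖) → ‖p - p'‖ ≤ K * δ

/-- [FC-DD] Determinant of the derivative in `p` (from `BoostAlg`, `CcMom`).
Proof.  `L = -N(1-X)N`, `N = NNL p` symmetric with determinant `γ`, `X` the operator of `Xm ψ`. -/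
def DetD : Prop :=
  ∀ (n : ℕ) (p : E n), ‖p‖ < 1 → ∀ ψ : E n → ℝ, Cc ψ → ∀ L : E n →L[ℝ] E n,
    (∀ a a' : E n, (inner ℝ (L a) a' : ℝ) =
      -inner ℝ (NN p a) (NN p a') + qX ψ (NN p a) (NN p a')) →
    |L.det| = lf p ^ 2 * |(1 - Xm ψ).det|

/-- [FC-DT] Bound for the numerator (from `BoostAlg`, `GraphInt`, `CcBasic`, `TaskMat` (proved in
`Pool.Agent.H241R3.FV.TMat`)).
Proof.  Let `z = z(y)`, `t̂ = t̂(y)` be the components of `Lam p (φ y, y)`, `r² = ‖y‖²-φ(y)² =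
‖z‖²-t̂²`.  `gk p (φ y) y = γ⁻¹N_p(gd(z)z)`, so `T = γ⁻¹ N_p ∘ T̂`, `T̂ v = ∫ (D y v) gd(z) z dy`,
`|det T| = γ^(1-n) |det T̂|`.  For a matrix `A` with `AᵀGA = 1`:
`trace(T̂ A) = ∫ gd(z) D_y(A z) dy ≤ ∫ gd(z) r √(G(Az,Az)) dy = ∫ gd(z) r ‖z‖ dy`, and
`‖z‖ √(‖z‖²-t̂²) ≤ ‖z‖²-t̂²/2`, so by `GraphInt` (`mv ψ = 0`) this is `≤ nγ - γ(s+b)/2 = n c`,
`c = γ(1-(s+b)/(2n))`, `s = sv ψ`, `b = bv ψ p`; `c ≥ 0` as the integral is nonnegative.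
`TaskMat`: `|det T̂| ≤ cⁿ √det G`, and `(1-(s+b)/(2n))ⁿ ≤ exp(-(s+b)/2)`. -/
def DetT : Prop :=
  ∀ (n : ℕ), 0 < n → ∀ p : E n, ‖p‖ < 1 → ∀ φ ψ : E n → ℝ, Cc φ → Cc ψ → IsHat p φ ψ →
    mv ψ = 0 → ∀ G : Matrix (Fin n) (Fin n) ℝ, G.PosDef → ∀ D : E n → E n →L[ℝ] ℝ,
    Measurable D → (∀ᵐ y ∂(volume : Measure (E n)), ∀ v : E n,
      (D y v) ^ 2 ≤ (‖y‖ ^ 2 - φ y ^ 2) * ∑ i, ∑ j, v i * G i j * v j) →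
    ∀ T : E n →L[ℝ] E n, (∀ v, T v = ∫ y, (D y v) • gk p (φ y) y) →
    |T.det| ≤ lf p * Real.exp (-(sv ψ + bv ψ p) / 2) * √G.det

/-- [FC-JF] The Jacobian (from `BoostAlg`, `HatEx`, `GGHat`, `GGDer`, `GGForm`, `DetD`, `DetT`,
`GaussFinal`).
Proof.  `ψ` the hat; `mv ψ = 0`; `|det L| = γ² |det(1-X)|`, `det(1-X) > 0` and
`exp(-(s+b)/2) ≤ (100/81) det(1-X)`.  So `|det T| ≤ γ (100/81) det(1-X) √det G =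
(100/81) γ⁻¹ |det L| √det G`. -/
def JacF : Prop :=
  ∀ (n : ℕ), 0 < n → ∀ p : E n, ‖p‖ < 1 → ∀ φ : E n → ℝ, Cc φ → GG p φ = 0 →
    ∀ L : E n →L[ℝ] E n, HasFDerivAt (fun p' => GG p' φ) L p →
    ∀ G : Matrix (Fin n) (Fin n) ℝ, G.PosDef → ∀ D : E n → E n →L[ℝ] ℝ, Measurable D →
    (∀ᵐ y ∂(volume : Measure (E n)), ∀ v : E n,
      (D y v) ^ 2 ≤ (‖y‖ ^ 2 - φ y ^ 2) * ∑ i, ∑ j, v i * G i j * v j) →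
    ∀ T : E n →L[ℝ] E n, (∀ v, T v = ∫ y, (D y v) • gk p (φ y) y) →
    L.det ≠ 0 ∧ |T.det| ≤ 100 / 81 * (lf p)⁻¹ * |L.det| * √G.det

end Pool.Agent.Q188.FC
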